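import Pool.Agent.Helper91.KZ.StL

/-!
# MP_1d885e_al, module TL4: fields of finite transcendence degree
-/

namespace Pool.Agent.Helper91.KZ

open Polynomial TensorProduct

universe u

noncomputable section

theorem sc_equiv (hTL3 : ST_TL3.{u}) {K L : Type u} [Field K] [Field L] (e : K ≃+* L) {i : ℕ}
    (h : SC i K) : SC i L := by
  letI : Algebra K L := e.toRingHom.toAlgebra
  haveI : Algebra.IsAlgebraic K L := ⟨fun y => by
    obtain ⟨x, rfl⟩ := e.surjective y
    exact isAlgebraic_algebraMap x⟩
  exact hTL3 K L i h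

attribute [local instance] Polynomial.algebra in
theorem sc_step (hTL2 : ST_TL2.{u}) (R : Type u) [CommRing R] [IsDomain R] (i : ℕ)
    (h : SC i (FractionRing R)) : SC (i + 1) (FractionRing R[X]) := by
  haveI hloc : IsLocalization ((nonZeroDivisors R).map C) (FractionRing R)[X] :=
    Polynomial.isLocalization (nonZeroDivisors R) (FractionRing R)
  have hg : ∀ y : (nonZeroDivisors R).map C, IsUnit (algebraMap R[X] (FractionRing R[X]) y) := by
    rintro ⟨y, c, hc, rfl⟩
    rw [isUnit_iff_ne_zero]
    intro h0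
    have h1 : C c = (0 : R[X]) := by
      apply IsFractionRing.injective R[X] (FractionRing R[X])
      rw [map_zero]
      exact h0
    rw [C_eq_zero] at h1
    exact nonZeroDivisors.ne_zero hc h1
  letI alg : Algebra (FractionRing R)[X] (FractionRing R[X]) :=
    (IsLocalization.lift (M := (nonZeroDivisors R).map C) (g := algebraMap R[X] (FractionRing R[X]))
      hg).toAlgebra
  haveI : IsScalarTower R[X] (FractionRing R)[X] (FractionRing R[X]) :=
    IsScalarTower.of_algebraMap_eq fun x => (IsLocalization.lift_eq hg x).symm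
  haveI : IsFractionRing (FractionRing R)[X] (FractionRing R[X]) :=
    IsFractionRing.isFractionRing_of_isDomain_of_isLocalization ((nonZeroDivisors R).map C)
      (FractionRing R)[X] (FractionRing R[X])
  exact hTL2 (FractionRing R) (FractionRing R[X]) i h

theorem sc_mv (hTL0 : ST_TL0.{u}) (hTL2 : ST_TL2.{u}) (hTL3 : ST_TL3.{u}) (k : Type u) [Field k]
    [IsAlgClosed k] (m : ℕ) : SC m (FractionRing (MvPolynomial (Fin m) k)) := by
  induction m with
  | zero =>
    have e : k ≃+* FractionRing (MvPolynomial (Fin 0) k) :=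
      IsFractionRing.ringEquivOfRingEquiv (A := k) (K := k)
        (MvPolynomial.isEmptyAlgEquiv k (Fin 0)).symm.toRingEquiv
    exact sc_equiv hTL3 e (hTL0 k)
  | succ m ih =>
    have h := sc_step hTL2 (MvPolynomial (Fin m) k) m ih
    have e : FractionRing (MvPolynomial (Fin m) k)[X] ≃+*
        FractionRing (MvPolynomial (Fin (m + 1)) k) :=
      IsFractionRing.ringEquivOfRingEquiv (MvPolynomial.finSuccEquiv k m).symm.toRingEquiv
    exact sc_equiv hTL3 e h

theorem TL4 (hTL0 : ST_TL0.{u}) (hTL2 : ST_TL2.{u}) (hTL3 : ST_TL3.{u}) : ST_TL4.{u} := by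
  intro k F _ _ _ _ m x hx
  have h1 := sc_mv hTL0 hTL2 hTL3 k m
  have h2 : SC m (IntermediateField.adjoin k (Set.range x)) :=
    sc_equiv hTL3 hx.1.aevalEquivField.toRingEquiv h1
  haveI := hx.isAlgebraic_field
  exact hTL3 _ F m h2

end

end Pool.Agent.Helper91.KZ
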