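import Pool.Agent.Helper91.KZ.StM

/-!
# MP_1d885e_al, module WAR: two cyclic algebras with `p`-free complements
-/

namespace Pool.Agent.Helper91.KZ

open Polynomial TensorProduct

universe u

noncomputable section

theorem war_one (hTS : ST_TS.{u}) (hIDX : ST_IDX.{u}) (hKPE : ST_KPE.{u}) (hCYK : ST_CYK.{u})
    (hTWT : ST_TWT.{u}) (hTWP : ST_TWP.{u}) (hTWM : ST_TWM.{u}) (hMMI : ST_MMI.{u})
    (hDVS : ST_DVS.{u}) (W T R : Type u) [Field W] [Uncountable W] [PerfectField W] [Field T]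
    [Algebra W T] [FiniteDimensional W T] [IsGalois W T] [Ring R] [Algebra W R] (p : ℕ)
    (σ : T ≃ₐ[W] T) (z : W) (hp : p.Prime) (hfr : Module.finrank W T = p) (hσ : σ ≠ 1)
    (h : CPF W T R p σ z) :
    ∃ (T₁ : TW W T R) (a : (T ≃ₐ[W] T) → (T ≃ₐ[W] T) → T) (X : Type u) (_ : DivisionRing X)
      (_ : Algebra T X) (r : ℕ), Cor T (T ⊗[W] R) X r ∧ KP p 0 T X ∧ (∀ g h, a g h ≠ 0) ∧
      (∀ g h, T₁.U g h = algebraMap T T₁.B (a g h)) ∧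
      ∏ i ∈ Finset.range p, a (σ ^ i) σ = algebraMap W T z⁻¹ ∧ z ≠ 0 := by
  obtain ⟨K, _, _, i, y, Δ, _, _, r, hcyc, hDA, hKP, hMI⟩ := h
  obtain ⟨s, X, _, _, hCor, hs⟩ := hTS W Δ T hDA
  have hv : padicValNat p s ≤ 0 := hIDX W Δ T X p 0 s hp hDA hKP hCor
  have hs1 : s = 1 := by
    rw [hfr] at hs
    rcases (Nat.dvd_prime hp).1 hs with h | h
    · exact h
    · rw [h] at hv
      haveI : Fact p.Prime := ⟨hp⟩
      rw [padicValNat_self] at hv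
      omega
  subst hs1
  have hKX : KP p 0 T X := hKPE W Δ T X p 0 1 hDA hKP hCor
  obtain ⟨TT, hTT⟩ := hTWT W T Δ X hDA hCor
  obtain ⟨hMK, S, a, hS, hprod⟩ := hCYK W T K p σ i y z hp hfr hσ hcyc
  obtain ⟨T', e, he⟩ := hTWP W T K Δ S TT p a hcyc.cs hS
  obtain ⟨T'', e', he'⟩ := hTWM W T (K ⊗[W] Δ) R r T' hMI
  refine ⟨T'', a, X, _, _, r * (p * 1 * 1), ⟨hCor.1, ?_⟩, hKX, hS.a0, ?_, hprod, hcyc.z0⟩
  · obtain ⟨h1, h2, h3, h4, h5, h6⟩ := hMMI W T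
    obtain ⟨k1, k2, k3, k4, k5, k6⟩ := hMMI T T
    have e1 : MI T (T ⊗[W] R) (T ⊗[W] (K ⊗[W] Δ)) r := h2 R (K ⊗[W] Δ) r hMI
    have e2 : MI T ((T ⊗[W] K) ⊗[T] (T ⊗[W] Δ)) (T ⊗[T] X) (p * 1) :=
      k3 (T ⊗[W] Δ) X (T ⊗[W] K) T p 1 hMK hCor.2
    have e3 : MI T (T ⊗[W] (K ⊗[W] Δ)) (T ⊗[T] X) (p * 1) := by
      obtain ⟨f⟩ := h4 Δ K
      exact k6 _ _ _ _ ⟨f.symm⟩ e2
    have e4 : MI T (T ⊗[T] X) X 1 :=
      (hDVS T).2.2.1 (T ⊗[T] X) X ⟨Algebra.TensorProduct.lid T X⟩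
    exact k1 _ _ _ _ _ e1 (k1 _ _ _ _ _ e3 e4)
  · intro g h
    apply (e'.trans e).injective
    show e (e' (T''.U g h)) = e (e' (algebraMap T T''.B (a g h)))
    rw [he', he, hTT, mul_one, AlgEquiv.commutes, AlgEquiv.commutes]

theorem WAR (hTS : ST_TS.{u}) (hIDX : ST_IDX.{u}) (hKPE : ST_KPE.{u}) (hCYK : ST_CYK.{u})
    (hTWT : ST_TWT.{u}) (hTWP : ST_TWP.{u}) (hTWM : ST_TWM.{u}) (hTWC : ST_TWC.{u})
    (hNSC : ST_NSC.{u}) (hNOR : ST_NOR.{u}) (hMMI : ST_MMI.{u}) (hDVS : ST_DVS.{u}) :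
    ST_WAR.{u} := by
  intro W T R _ _ _ _ _ _ _ _ _ p σ z₁ z₂ hp hfr hσ h₁ h₂
  obtain ⟨T₁, a₁, X₁, _, _, r₁, hC₁, hK₁, ha₁, hU₁, hp₁, hz₁⟩ :=
    war_one hTS hIDX hKPE hCYK hTWT hTWP hTWM hMMI hDVS W T R p σ z₁ hp hfr hσ h₁
  obtain ⟨T₂, a₂, X₂, _, _, r₂, hC₂, hK₂, ha₂, hU₂, hp₂, hz₂⟩ :=
    war_one hTS hIDX hKPE hCYK hTWT hTWP hTWM hMMI hDVS W T R p σ z₂ hp hfr hσ h₂
  haveI : Uncountable T := (algebraMap W T).injective.uncountable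
  obtain ⟨q, hq0, hpq, hq⟩ := hTWC W T R X₁ T₁ T₂ a₂ r₁ p hC₁ hp hK₁ ha₂ hU₂
  have hcoh := hq q dvd_rfl hq0
  have e1 : (fun g h => NN T q (T₁.U g h)) = fun g h => a₁ g h ^ q := by
    funext g h
    rw [hU₁, (hNSC T T₁.B).1]
  rw [e1] at hcoh
  obtain ⟨t, ht, hN⟩ := hNOR W T p σ (fun g h => a₁ g h ^ q) (fun g h => a₂ g h ^ q) hp hfr hσ
    (fun g h => pow_ne_zero _ (ha₂ g h)) hcoh
  simp only [Finset.prod_pow] at hN
  rw [hp₁, hp₂, ← map_pow, ← map_pow, ← map_mul] at hN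
  have hN' := (algebraMap W T).injective hN
  set c := z₂ / z₁ with hc
  have hc0 : c ≠ 0 := div_ne_zero hz₂ hz₁
  have hcq : c ^ q = Algebra.norm W t := by
    rw [inv_pow, inv_pow] at hN'
    have h1 : z₁ ^ q ≠ 0 := pow_ne_zero _ hz₁
    have h2 : z₂ ^ q ≠ 0 := pow_ne_zero _ hz₂
    rw [hc, div_pow]
    field_simp at hN' ⊢
    linear_combination hN'
  have hcp : Algebra.norm W (algebraMap W T c) = c ^ p := by
    rw [Algebra.norm_algebraMap, hfr]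
  have hcop : Nat.Coprime q p := ((Nat.Prime.coprime_iff_not_dvd hp).2 hpq).symm
  obtain ⟨u, -, hu⟩ := Nat.exists_mul_mod_eq_one_of_coprime hcop hp.one_lt
  set v := q * u / p with hv
  have huv : q * u = p * v + 1 := by
    have := Nat.div_add_mod (q * u) p
    rw [hu] at this
    exact this.symm
  have hinv : ∀ x : T, x ≠ 0 → Algebra.norm W x⁻¹ = (Algebra.norm W x)⁻¹ := by
    intro x hx
    apply eq_inv_of_mul_eq_one_left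
    rw [← map_mul, inv_mul_cancel₀ hx, map_one]
  refine ⟨(algebraMap W T c) ^ v * (t ^ u)⁻¹, ?_⟩
  rw [map_mul, hinv _ (pow_ne_zero _ ht), map_pow, map_pow, hcp, ← hcq, ← pow_mul, ← pow_mul, huv,
    pow_succ]
  have h3 : c ^ (p * v) ≠ 0 := pow_ne_zero _ hc0
  rw [mul_inv, ← mul_assoc, mul_inv_cancel₀ h3, one_mul, hc, inv_div, div_mul_cancel₀ _ hz₂]

end

end Pool.Agent.Helper91.KZ
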