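import Pool.Agent.Helper91.KZ.StL
import Pool.Agent.Helper14.KZ.ABR
import Pool.Agent.Helper14.KZ.BE2
import Pool.Agent.Helper14.KZ.CHA
import Pool.Agent.Helper14.KZ.DRP
import Pool.Agent.Helper14.KZ.FDL
import Pool.Agent.Helper14.KZ.IDX
import Pool.Agent.Helper14.KZ.KTN
import Pool.Agent.Helper14.KZ.L4
import Pool.Agent.Helper14.KZ.MAIN
import Pool.Agent.Helper14.KZ.RES
import Pool.Agent.Helper2.KZ.CYB
import Pool.Agent.Helper20.KZ.TWP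
import Pool.Agent.Helper21.KZ.IDD
import Pool.Agent.Helper21.KZ.MAX
import Pool.Agent.Helper21.KZ.SIM
import Pool.Agent.Helper25.KZ.MT2
import Pool.Agent.Helper27.KZ.INT
import Pool.Agent.Helper31.KZ.ARI
import Pool.Agent.Helper31.KZ.QBN
import Pool.Agent.Helper40.KZ.AMI
import Pool.Agent.Helper40.KZ.BC
import Pool.Agent.Helper40.KZ.GEN
import Pool.Agent.Helper40.KZ.IN2
import Pool.Agent.Helper40.KZ.REV
import Pool.Agent.Helper40.KZ.TRS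
import Pool.Agent.Helper41.KZ.CS1
import Pool.Agent.Helper41.KZ.KUM
import Pool.Agent.Helper44.KZ.CHB
import Pool.Agent.Helper44.KZ.CYC
import Pool.Agent.Helper44.KZ.KZ1
import Pool.Agent.Helper44.KZ.NOR
import Pool.Agent.Helper44.KZ.NRM
import Pool.Agent.Helper44.KZ.SPL
import Pool.Agent.Helper44.KZ.SPT
import Pool.Agent.Helper44.KZ.TWC
import Pool.Agent.Helper44.KZ.TWR
import Pool.Agent.Helper44.KZ.TWZ
import Pool.Agent.Helper44.KZ.UL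
import Pool.Agent.Helper45.KZ.DVC
import Pool.Agent.Helper45.KZ.KPE
import Pool.Agent.Helper45.KZ.RSC
import Pool.Agent.Helper45.KZ.TWB
import Pool.Agent.Helper45.KZ.TWI
import Pool.Agent.Helper45.KZ.TWM
import Pool.Agent.Helper46.KZ.CS2
import Pool.Agent.Helper46.KZ.CYG
import Pool.Agent.Helper46.KZ.DET
import Pool.Agent.Helper46.KZ.QON
import Pool.Agent.Helper46.KZ.SKN
import Pool.Agent.Helper46.KZ.STP
import Pool.Agent.Helper46.KZ.SUB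
import Pool.Agent.Helper46.KZ.SYL
import Pool.Agent.Helper46.KZ.TL3
import Pool.Agent.Helper47.KZ.COM
import Pool.Agent.Helper47.KZ.CS3
import Pool.Agent.Helper47.KZ.KZW
import Pool.Agent.Helper47.KZ.TWT
import Pool.Agent.Helper48.KZ.CR1
import Pool.Agent.Helper51.KZ.AR1
import Pool.Agent.Helper51.KZ.CYK
import Pool.Agent.Helper51.KZ.PRI
import Pool.Agent.Helper52.KZ.CRO
import Pool.Agent.Helper52.KZ.MMI
import Pool.Agent.Helper52.KZ.NRF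
import Pool.Agent.Helper53.KZ.MT1
import Pool.Agent.Helper53.KZ.TL0
import Pool.Agent.Helper53.KZ.TL1
import Pool.Agent.Helper61.KZ.IND
import Pool.Agent.Helper61.KZ.NU
import Pool.Agent.Helper67.KZ.CMP
import Pool.Agent.Helper67.KZ.COH
import Pool.Agent.Helper67.KZ.DVS
import Pool.Agent.Helper67.KZ.GAL
import Pool.Agent.Helper67.KZ.GDS
import Pool.Agent.Helper67.KZ.PER
import Pool.Agent.Helper67.KZ.TRI
import Pool.Agent.Helper67.KZ.UNI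
import Pool.Agent.Helper7.KZ.KIL
import Pool.Agent.Helper71.KZ.E1
import Pool.Agent.Helper78.KZ.DR1
import Pool.Agent.Helper78.KZ.NSC
import Pool.Agent.Helper8.KZ.TL2
import Pool.Agent.Helper8.KZ.TWF
import Pool.Agent.Helper83.KZ.FUN
import Pool.Agent.Helper88.KZ.B7
import Pool.Agent.Helper88.KZ.EMB
import Pool.Agent.Helper88.KZ.KPD
import Pool.Agent.Helper90.KZ.ALG
import Pool.Agent.Helper90.KZ.FDG
import Pool.Agent.Helper90.KZ.MUL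
import Pool.Agent.Helper90.KZ.RDV
import Pool.Agent.Helper90.KZ.SPC
import Pool.Agent.Helper90.KZ.TK
import Pool.Agent.Helper90.KZ.TS
import Pool.Agent.Helper91.KZ.TL4
import Pool.Agent.Helper91.KZ.WAR
import Pool.Agent.Helper97.KZ.BE1
import Pool.Agent.Helper97.KZ.KZ0
import Pool.Agent.Helper97.KZ.TWE
import Pool.Agent.Helper98.KZ.CEN
import Pool.Agent.Helper98.KZ.CHP
import Pool.Agent.Helper98.KZ.EHY
import Pool.Agent.Helper98.KZ.KEY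
import Pool.Agent.Helper98.KZ.KPC
import Pool.Agent.Helper98.KZ.PFS

/-!
# MP_1d885e_al: composition of the modules
-/

namespace Pool.Agent.Helper91.KZ.All

open Pool.Agent.Helper91.KZ

universe u

theorem a_ALG : ST_ALG.{u} := Pool.Agent.Helper90.KZ.ALG

theorem a_AR1 : ST_AR1.{u} := Pool.Agent.Helper91.KZ.st_AR1

theorem a_ARI : ST_ARI.{u} := Pool.Agent.Helper31.KZ.ARI a_AR1

theorem a_BC : ST_BC.{u} := Pool.Agent.Helper40.KZ.st_BC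

theorem a_CMP : ST_CMP.{u} := Pool.Agent.Helper67.KZ.CMP

theorem a_COH : ST_COH.{u} := Pool.Agent.Helper67.KZ.COH

theorem a_CS1 : ST_CS1.{u} := Pool.Agent.Helper41.KZ.CS1

theorem a_CS3 : ST_CS3.{u} := Pool.Agent.Helper47.KZ.CS3 a_CS1

theorem a_CYG : ST_CYG.{u} := Pool.Agent.Helper46.KZ.st_CYG

theorem a_CYK : ST_CYK.{u} := Pool.Agent.Helper91.KZ.st_CYK

theorem a_DET : ST_DET.{u} := Pool.Agent.Helper46.KZ.st_DET

theorem a_DVS : ST_DVS.{u} := Pool.Agent.Helper67.KZ.DVS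

theorem a_EMB : ST_EMB.{u} := Pool.Agent.Helper88.KZ.EMB

theorem a_GAL : ST_GAL.{u} := Pool.Agent.Helper67.KZ.GAL

theorem a_GDS : ST_GDS.{u} := Pool.Agent.Helper67.KZ.GDS

theorem a_GEN : ST_GEN.{u} := Pool.Agent.Helper40.KZ.st_GEN a_DET

theorem a_IN2 : ST_IN2.{u} := Pool.Agent.Helper40.KZ.st_IN2 a_DET

theorem a_IND : ST_IND.{u} := Pool.Agent.Helper61.KZ.IND a_DET

theorem a_INT : ST_INT.{u} := Pool.Agent.Helper27.KZ.INT a_CMP a_IN2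

theorem a_KIL : ST_KIL.{u} := Pool.Agent.Helper7.KZ.st_KIL

theorem a_MMI : ST_MMI.{u} := Pool.Agent.Helper52.KZ.MMI

theorem a_NOR : ST_NOR.{u} := Pool.Agent.Helper44.KZ.kz_NOR

theorem a_NRF : ST_NRF.{u} := Pool.Agent.Helper52.KZ.NRF

theorem a_NSC : ST_NSC.{u} := Pool.Agent.Helper91.KZ.st_NSC

theorem a_PER : ST_PER.{u} := Pool.Agent.Helper67.KZ.PER

theorem a_QBN : ST_QBN.{u} := Pool.Agent.Helper31.KZ.QBN

theorem a_QON : ST_QON.{u} := Pool.Agent.Helper46.KZ.st_QON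

theorem a_RDV : ST_RDV.{u} := Pool.Agent.Helper90.KZ.RDV

theorem a_REV : ST_REV.{u} := Pool.Agent.Helper40.KZ.st_REV

theorem a_RSC : ST_RSC.{u} := Pool.Agent.Helper45.KZ.st_RSC

theorem a_SIM : ST_SIM.{u} := Pool.Agent.Helper21.KZ.SIM

theorem a_SKN : ST_SKN.{u} := Pool.Agent.Helper46.KZ.st_SKN

theorem a_STP : ST_STP.{u} := Pool.Agent.Helper46.KZ.st_STP

theorem a_SYL : ST_SYL.{u} := Pool.Agent.Helper46.KZ.st_SYL

theorem a_TK : ST_TK.{u} := Pool.Agent.Helper90.KZ.TK a_SIM a_ALG a_RDV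

theorem a_TL0 : ST_TL0.{u} := Pool.Agent.Helper53.KZ.st_TL0

theorem a_TL1 : ST_TL1.{u} := Pool.Agent.Helper53.KZ.st_TL1

theorem a_TL2 : ST_TL2.{u} := Pool.Agent.Helper8.KZ.TL2

theorem a_TL3 : ST_TL3.{u} := Pool.Agent.Helper46.KZ.st_TL3 a_TL1

theorem a_TL4 : ST_TL4.{u} := Pool.Agent.Helper91.KZ.TL4 a_TL0 a_TL2 a_TL3

theorem a_TRI : ST_TRI.{u} := Pool.Agent.Helper67.KZ.TRI a_GDS

theorem a_TRS : ST_TRS.{u} := Pool.Agent.Helper40.KZ.st_TRS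

theorem a_TS : ST_TS.{u} := Pool.Agent.Helper90.KZ.TS a_SIM a_ALG a_RDV

theorem a_TWB : ST_TWB.{u} := Pool.Agent.Helper45.KZ.st_TWB

theorem a_TWE : ST_TWE.{u} := Pool.Agent.Helper97.KZ.st_TWE

theorem a_TWF : ST_TWF.{u} := Pool.Agent.Helper8.KZ.TWF

theorem a_TWI : ST_TWI.{u} := Pool.Agent.Helper45.KZ.st_TWI

theorem a_TWK : ST_TWK.{u} := Pool.Agent.Helper45.KZ.st_TWK a_TWE a_TWB

theorem a_TWM : ST_TWM.{u} := Pool.Agent.Helper45.KZ.st_TWM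

theorem a_TWP : ST_TWP.{u} := Pool.Agent.Helper20.KZ.kz_TWP

theorem a_TWR : ST_TWR.{u} := Pool.Agent.Helper44.KZ.kz_TWR

theorem a_TWT : ST_TWT.{u} := Pool.Agent.Helper47.KZ.TWT a_DVS

theorem a_TWY : ST_TWY.{u} := Pool.Agent.Helper45.KZ.st_TWY

theorem a_UL : ST_UL.{u} := Pool.Agent.Helper44.KZ.kz_UL a_CMP a_IND

theorem a_UNI : ST_UNI.{u} := Pool.Agent.Helper67.KZ.UNI

theorem a_AMI : ST_AMI.{u} := Pool.Agent.Helper40.KZ.st_AMI a_DET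

theorem a_CEN : ST_CEN.{u} := Pool.Agent.Helper98.KZ.CEN a_SIM

theorem a_CHP : ST_CHP.{u} := Pool.Agent.Helper98.KZ.CHP a_SKN a_CEN

theorem a_CR1 : ST_CR1.{u} := Pool.Agent.Helper48.KZ.CR1 a_GDS

theorem a_CRO : ST_CRO.{u} := Pool.Agent.Helper52.KZ.CRO a_CR1

theorem a_DVC : ST_DVC.{u} := Pool.Agent.Helper45.KZ.st_DVC a_CEN a_UNI a_ALG

theorem a_FDL : ST_FDL.{u} :=
  Pool.Agent.Helper14.KZ.FDL a_CEN a_GAL a_SYL a_STP a_TS a_EMB a_MMI a_UNI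

theorem a_KPC : ST_KPC.{u} := Pool.Agent.Helper98.KZ.KPC a_CEN a_UNI

theorem a_KUM : ST_KUM.{u} := Pool.Agent.Helper41.KZ.KUM a_SKN a_CEN

theorem a_MAX : ST_MAX.{u} := Pool.Agent.Helper21.KZ.MAX a_CEN a_UNI

theorem a_MT1 : ST_MT1.{u} := Pool.Agent.Helper53.KZ.st_MT1 a_KUM a_QBN a_NRF

theorem a_MT2 : ST_MT2.{u} := Pool.Agent.Helper25.KZ.MT2 a_MT1

theorem a_NU : ST_NU.{u} := Pool.Agent.Helper61.KZ.NU a_TRS a_UL

theorem a_PFS : ST_PFS.{u} := Pool.Agent.Helper98.KZ.PFS a_CEN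

theorem a_SPC : ST_SPC.{u} := Pool.Agent.Helper90.KZ.SPC a_BC a_NU

theorem a_SPL : ST_SPL.{u} := Pool.Agent.Helper44.KZ.kz_SPL a_CEN a_GAL a_MMI

theorem a_SPT : ST_SPT.{u} := Pool.Agent.Helper44.KZ.kz_SPT a_CEN a_MMI

theorem a_CS2 : ST_CS2.{u} := Pool.Agent.Helper46.KZ.st_CS2 a_SPL

theorem a_CYD : ST_CYD.{u} := Pool.Agent.Helper45.KZ.st_CYD a_CS1 a_CS2

theorem a_FDG : ST_FDG.{u} := Pool.Agent.Helper90.KZ.FDG a_AMI a_INT a_SPC a_GEN a_BC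

theorem a_FUN : ST_FUN.{u} := Pool.Agent.Helper83.KZ.FUN a_TL4 a_TL1 a_CHP a_MT2

theorem a_IDD : ST_IDD.{u} := Pool.Agent.Helper21.KZ.IDD a_RDV a_CS1 a_CS2 a_UNI

theorem a_KPE : ST_KPE.{u} := Pool.Agent.Helper45.KZ.st_KPE a_FDG

theorem a_KZ1 : ST_KZ1.{u} :=
  Pool.Agent.Helper44.KZ.kz_KZ1 a_CEN a_KPE a_PFS a_MMI a_UNI a_DVS a_TS

theorem a_KZW : ST_KZW.{u} := Pool.Agent.Helper47.KZ.KZW a_CS1 a_CS2 a_TS a_KPE a_MMI a_DVS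

theorem a_MUL : ST_MUL.{u} := Pool.Agent.Helper90.KZ.MUL a_AMI a_INT a_SPC a_GEN a_REV a_NU a_BC

theorem a_NRM : ST_NRM.{u} := Pool.Agent.Helper44.KZ.kz_NRM a_MUL a_NSC

theorem a_SUB : ST_SUB.{u} := Pool.Agent.Helper46.KZ.st_SUB a_CS1 a_CS3 a_CS2

theorem a_TWC : ST_TWC.{u} := Pool.Agent.Helper44.KZ.kz_TWC a_TWI a_TWB a_NRM a_NSC

theorem a_TWZ : ST_TWZ.{u} := Pool.Agent.Helper44.KZ.kz_TWZ a_TWB a_NRM a_NSC

theorem a_BE1 : ST_BE1.{u} :=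
  Pool.Agent.Helper97.KZ.st_BE1 a_TS a_TWE a_TWB a_TWZ a_NRM a_NSC a_CRO a_KIL a_COH a_RSC a_TWP

theorem a_CYB : ST_CYB.{u} := Pool.Agent.Helper2.KZ.CYB a_CYD a_DVS a_IDD a_TWF a_MMI

theorem a_CYC : ST_CYC.{u} :=
  Pool.Agent.Helper44.KZ.kz_CYC a_SPL a_SYL a_STP a_EMB a_IDD a_MMI a_UNI a_CS1 a_CS2

theorem a_IDX : ST_IDX.{u} :=
  Pool.Agent.Helper14.KZ.IDX a_TS a_KPE a_EMB a_KPC a_GAL a_SYL a_STP a_MMI a_UNI

theorem a_KEY : ST_KEY.{u} :=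
  Pool.Agent.Helper98.KZ.KEY a_TS a_IDX a_KPE a_TWT a_TWK a_TWP a_TWM a_TWC a_PER a_TRI a_COH
    a_MMI a_CS2 a_DVS

theorem a_KPD : ST_KPD.{u} := Pool.Agent.Helper88.KZ.KPD a_TS a_CEN a_GAL a_IDX a_MMI a_UNI

theorem a_KTN : ST_KTN.{u} := Pool.Agent.Helper14.KZ.KTN a_TS a_CEN a_IDX a_SPL a_MMI a_UNI

theorem a_KZ0 : ST_KZ0.{u} := Pool.Agent.Helper97.KZ.st_KZ0 a_CEN a_TWF a_CYG a_SUB a_MMI a_DVS

theorem a_PRI : ST_PRI.{u} :=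
  Pool.Agent.Helper91.KZ.st_PRI a_CS1 a_CS2 a_SYL a_IDD a_TWR a_TWM a_TWK a_TWC a_TWY a_KIL a_COH
    a_RSC a_TRI a_NSC a_MMI a_UNI

theorem a_WAR : ST_WAR.{u} :=
  Pool.Agent.Helper91.KZ.WAR a_TS a_IDX a_KPE a_CYK a_TWT a_TWP a_TWM a_TWC a_NSC a_NOR a_MMI
    a_DVS

theorem a_B7 : ST_B7.{u} :=
  Pool.Agent.Helper88.KZ.B7 a_CYC a_TS a_KPE a_TK a_IDX a_UNI a_MMI a_TWT a_TWM a_NSC a_COH a_KEY
    a_SPT a_DVS a_CS2

theorem a_CHA : ST_CHA.{u} :=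
  Pool.Agent.Helper14.KZ.CHA a_FDL a_TS a_TK a_KPD a_IDD a_CYB a_CS2 a_DVS a_MMI a_UNI

theorem a_CHB : ST_CHB.{u} :=
  Pool.Agent.Helper44.KZ.kz_CHB a_SKN a_KZ0 a_DVC a_CYD a_CYB a_IDD a_TS a_KTN a_KPD a_CS2 a_MMI
    a_UNI a_DVS

theorem a_DR1 : ST_DR1.{u} :=
  Pool.Agent.Helper91.KZ.st_DR1 a_STP a_TS a_KPD a_EMB a_MMI a_UNI a_DVS

theorem a_DRP : ST_DRP.{u} := Pool.Agent.Helper14.KZ.DRP a_SYL a_TS a_KPD a_DR1 a_MMI

theorem a_EHY : ST_EHY.{u} := Pool.Agent.Helper98.KZ.EHY a_TWF a_KZW a_WAR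

theorem a_L4 : ST_L4.{u} :=
  Pool.Agent.Helper14.KZ.L4 a_TK a_TS a_KTN a_MAX a_B7 a_IDD a_UNI a_MMI a_KPE a_CS1 a_CS2 a_DVS

theorem a_ABR : ST_ABR.{u} := Pool.Agent.Helper14.KZ.ABR a_CHA a_CHB a_CYD

theorem a_E1 : ST_E1.{u} :=
  Pool.Agent.Helper71.KZ.st_E1 a_SKN a_KZ0 a_KZ1 a_EHY a_ARI a_CYG a_SUB a_PFS

theorem a_BE2 : ST_BE2.{u} :=
  Pool.Agent.Helper14.KZ.BE2 a_DRP a_E1 a_TWR a_SPT a_KEY a_MMI a_UNI a_TS

theorem a_MAIN : ST_MAIN.{u} :=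
  Pool.Agent.Helper14.KZ.MAIN a_MAX a_GAL a_TS a_KPE a_MMI a_UNI a_BE1 a_BE2 a_TK a_CS2 a_CS3
    a_PRI a_L4 a_DVS

theorem a_RES : ST_RES.{u} := Pool.Agent.Helper14.KZ.RES a_ABR a_MAIN

theorem a_COM : ST_COM.{u} := Pool.Agent.Helper47.KZ.COM a_RES a_CYC

end Pool.Agent.Helper91.KZ.All
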