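import Mathlib

/-!
# MP_1d885e_al: division rings algebraic over an uncountable perfect centre

Definitions.
-/

namespace Pool.Agent.Helper91.KZ

open Polynomial TensorProduct

universe u

noncomputable section

/-! ### generic minimal polynomials -/

section gen

variable {K A : Type u} [Field K] [Ring A] [Algebra K A]

/-- central coefficients -/
def ca (A : Type u) [Ring A] [Algebra K A] (c : K[X]) : A[X] := c.map (algebraMap K A)

/-- the value at `z : A[X]` of a polynomial with coefficients in `K[X]` -/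
def ev (Q : K[X][X]) (z : A[X]) : A[X] := Q.eval₂ (mapRingHom (algebraMap K A)) z

/-- a linear functional applied to the coefficients -/
def fp (f : A →ₗ[K] K) (v : A[X]) : K[X] := v.sum fun i a => monomial i (f a)

/-- `P` is the monic minimal polynomial of `z` over `K[X]` (and over `K(X)`) -/
structure GM (z : A[X]) (P : K[X][X]) : Prop where
  mon : P.Monic
  root : ev P z = 0
  ind : ∀ Q : K[X][X], Q.degree < P.degree → ev Q z = 0 → Q = 0

/-- the value of `z : A[X]` at a central element -/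
def vl (l : K) (z : A[X]) : A := z.eval (algebraMap K A l)

/-- degree of an element -/
def dg (K : Type u) {A : Type u} [Field K] [Ring A] [Algebra K A] (x : A) : ℕ :=
  (minpoly K x).natDegree

/-- norm of degree `q` -/
def NN (K : Type u) {A : Type u} [Field K] [Ring A] [Algebra K A] (q : ℕ) (x : A) : K :=
  ((-1) ^ dg K x * (minpoly K x).coeff 0) ^ (q / dg K x)

end gen

/-! ### division algebras -/

/-- `D` is a division algebra with centre `E` and algebraic over `E` -/
structure DA (E D : Type u) [Field E] [DivisionRing D] [Algebra E D] : Prop where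
  alg : ∀ x : D, IsIntegral E x
  cen : ∀ x : D, (∀ y : D, x * y = y * x) → ∃ e : E, algebraMap E D e = x

/-- the degrees of the elements of `D` are not divisible by `p ^ (κ + 1)` -/
def KP (p κ : ℕ) (E D : Type u) [Field E] [Ring D] [Algebra E D] : Prop :=
  ∀ x : D, ¬ p ^ (κ + 1) ∣ dg E x

/-- `R` is the algebra of `r × r` matrices over `Δ` -/
def MI (M R Δ : Type u) [Field M] [Ring R] [Algebra M R] [Ring Δ] [Algebra M Δ] (r : ℕ) : Prop :=
  0 < r ∧ Nonempty (R ≃ₐ[M] Matrix (Fin r) (Fin r) Δ)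

/-- `R` is a matrix algebra over the algebraic division algebra `Δ` with centre `M` -/
def Cor (M R Δ : Type u) [Field M] [Ring R] [Algebra M R] [DivisionRing Δ] [Algebra M Δ] (r : ℕ) :
    Prop :=
  DA M Δ ∧ MI M R Δ r

/-- `K` is a finite-dimensional central division algebra of degree `n` over `E` -/
def CD (E K : Type u) [Field E] [DivisionRing K] [Algebra E K] (n : ℕ) : Prop :=
  DA E K ∧ 0 < n ∧ FiniteDimensional E K ∧ Module.finrank E K = n ^ 2

/-- `K` is a finite-dimensional central simple algebra over `E` -/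
structure CS (E K : Type u) [Field E] [Ring K] [Algebra E K] : Prop where
  sim : IsSimpleRing K
  fin : FiniteDimensional E K
  cen : ∀ x : K, (∀ y : K, x * y = y * x) → ∃ e : E, algebraMap E K e = x

/-- the nonzero elements are invertible -/
def DV (R : Type u) [Ring R] : Prop := (1 : R) ≠ 0 ∧ ∀ x : R, x ≠ 0 → IsUnit x

/-! ### twisted modules -/

/-- a simple module `V` over `N ⊗[E] X` with endomorphism ring `B` and `X`-linear, `g`-semilinear bijections
`R g`, `R g ∘ R h = u g h ∘ R (g h)` -/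
structure TW (E N X : Type u) [Field E] [Field N] [Algebra E N] [Ring X] [Algebra E X] where
  B : Type u
  [divB : DivisionRing B]
  [algB : Algebra N B]
  V : Type u
  [grpV : AddCommGroup V]
  [modN : Module N V]
  [modX : Module X V]
  [modB : Module B V]
  R : (N ≃ₐ[E] N) → (V ≃+ V)
  U : (N ≃ₐ[E] N) → (N ≃ₐ[E] N) → B
  nt : Nontrivial V
  nx : ∀ (n : N) (x : X) (v : V), n • x • v = x • n • v
  nb : ∀ (n : N) (b : B) (v : V), n • b • v = b • n • v
  xb : ∀ (x : X) (b : B) (v : V), x • b • v = b • x • v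
  ee : ∀ (e : E) (v : V), algebraMap E N e • v = algebraMap E X e • v
  bn : ∀ (n : N) (v : V), algebraMap N B n • v = n • v
  sm : ∀ W : AddSubgroup V, (∀ (n : N), ∀ w ∈ W, n • w ∈ W) → (∀ (x : X), ∀ w ∈ W, x • w ∈ W) →
    W = ⊥ ∨ W = ⊤
  full : ∀ f : V →+ V, (∀ (n : N) (v : V), f (n • v) = n • f v) →
    (∀ (x : X) (v : V), f (x • v) = x • f v) → ∃ b : B, ∀ v, f v = b • v
  rn : ∀ g (n : N) (v : V), R g (n • v) = g n • R g v
  rx : ∀ g (x : X) (v : V), R g (x • v) = x • R g v
  co : ∀ g h (v : V), R g (R h v) = U g h • R (g * h) v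

attribute [instance] TW.divB TW.algB TW.grpV TW.modN TW.modX TW.modB

/-- the endomorphism ring is `N`, the dimension is `n` and the cocycle is `a` -/
structure TWS {E N X : Type u} [Field E] [Field N] [Algebra E N] [Ring X] [Algebra E X]
    (T : TW E N X) (n : ℕ) (a : (N ≃ₐ[E] N) → (N ≃ₐ[E] N) → N) : Prop where
  a0 : ∀ g h, a g h ≠ 0
  ua : ∀ g h, T.U g h = algebraMap N T.B (a g h)
  sj : Function.Surjective (algebraMap N T.B)
  n0 : 0 < n
  fd : Module.finrank N T.V = n

/-- cocycles -/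
structure Z2 {E N : Type u} [Field E] [Field N] [Algebra E N]
    (a : (N ≃ₐ[E] N) → (N ≃ₐ[E] N) → N) : Prop where
  a0 : ∀ g h, a g h ≠ 0
  co : ∀ g h k, g (a h k) * a g (h * k) = a g h * a (g * h) k

/-- `a` and `b` are cohomologous -/
def Coh {E N : Type u} [Field E] [Field N] [Algebra E N]
    (a b : (N ≃ₐ[E] N) → (N ≃ₐ[E] N) → N) : Prop :=
  ∃ β : (N ≃ₐ[E] N) → N, (∀ g, β g ≠ 0) ∧ ∀ g h, a g h * β (g * h) = β g * g (β h) * b g h

/-! ### cyclic algebras -/

/-- `K` is the cyclic algebra `(T / E, σ, z)` -/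
structure Cyc (E T K : Type u) [Field E] [Field T] [Algebra E T] [Ring K] [Algebra E K]
    (p : ℕ) (σ : T ≃ₐ[E] T) (i : T →ₐ[E] K) (y : K) (z : E) : Prop where
  cs : CS E K
  dim : Module.finrank E K = p ^ 2
  yt : ∀ t, y * i t = i (σ t) * y
  yp : y ^ p = algebraMap E K z
  z0 : z ≠ 0

/-- `T'` is the compositum of `W` and `T` over `E`, of degree `p` over `W` -/
structure Cps (E T W T' : Type u) [Field E] [Field T] [Algebra E T] [Field W] [Algebra E W]
    [Field T'] [Algebra W T'] (p : ℕ) (σ : T ≃ₐ[E] T) (σ' : T' ≃ₐ[W] T')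
    (e : W ⊗[E] T ≃ₐ[W] T') : Prop where
  fin : FiniteDimensional W T'
  gal : IsGalois W T'
  deg : Module.finrank W T' = p
  ne : σ' ≠ 1
  cmp : ∀ t, σ' (e (1 ⊗ₜ t)) = e (1 ⊗ₜ σ t)

/-- over `W` the algebra `R` is the cyclic algebra `(T / W, σ, w)` times a division algebra without elements of
degree divisible by `p` -/
def CPF (W T R : Type u) [Field W] [Field T] [Algebra W T] [Ring R] [Algebra W R] (p : ℕ)
    (σ : T ≃ₐ[W] T) (w : W) : Prop :=
  ∃ (K : Type u) (_ : Ring K) (_ : Algebra W K) (i : T →ₐ[W] K) (y : K) (Δ : Type u)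
    (_ : DivisionRing Δ) (_ : Algebra W Δ) (r : ℕ), Cyc W T K p σ i y w ∧ DA W Δ ∧ KP p 0 W Δ ∧
    MI W R (K ⊗[W] Δ) r

/-- `K` is the tensor product of `j` cyclic division algebras of degree `p` -/
def CYS (p : ℕ) (W : Type u) [Field W] :
    ℕ → ∀ (K : Type u) [DivisionRing K] [Algebra W K], Prop
  | 0, K, _, _ => Module.finrank W K = 1
  | j + 1, K, _, _ => ∃ (K₁ K₂ : Type u) (_ : DivisionRing K₁) (_ : Algebra W K₁)
      (_ : DivisionRing K₂) (_ : Algebra W K₂), CYS p W j K₁ ∧ CD W K₂ p ∧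
      (∃ (T : Type u) (_ : Field T) (_ : Algebra W T), IsGalois W T ∧ Module.finrank W T = p ∧
        Nonempty (T →ₐ[W] K₂)) ∧ Nonempty (K₁ ⊗[W] K₂ ≃ₐ[W] K)

/-- systems of `r` forms of degree `d` in more than `r * d ^ i` variables have nontrivial zeros -/
def SC (i : ℕ) (F : Type u) [Field F] : Prop :=
  ∀ (r n d : ℕ), 0 < d → r * d ^ i < n → ∀ f : Fin r → MvPolynomial (Fin n) F,
    (∀ k, (f k).IsHomogeneous d) → ∃ v : Fin n → F, v ≠ 0 ∧ ∀ k, MvPolynomial.eval v (f k) = 0

end

end Pool.Agent.Helper91.KZ
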