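import Pool.Agent.Helper91.KZ.PubL

/-!
# MP_1d885e_al: the last steps
-/

namespace Pool.Agent.Helper91.KZ

open Polynomial TensorProduct

universe u

/-- the `p`-parts of the degrees are bounded if a finite extension of the centre has no long products of cyclic
algebras -/
theorem kp_bound (hABR : ST_ABR.{u}) (hTS : ST_TS.{u}) (hKPD : ST_KPD.{u}) (F D F' : Type u)
    [Field F] [Uncountable F] [PerfectField F] [DivisionRing D] [Algebra F D] [Field F']
    [Algebra F F'] [FiniteDimensional F F'] (p : ℕ) (hp : p.Prime) (hDA : DA F D) (B : ℕ)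
    (hB : ∀ (W : Type u) [Field W] [Algebra F' W] [FiniteDimensional F' W] (K : Type u)
      [DivisionRing K] [Algebra W K], ¬ CYS p W B K) : ∃ κ, KP p κ F D := by
  have : Uncountable F' := (algebraMap F F').injective.uncountable
  have : PerfectField F' := Algebra.IsAlgebraic.perfectField (K := F) (L := F')
  obtain ⟨s, Δ, iD, iA, hC, -⟩ := hTS F D F' hDA
  by_cases h : ∀ κ, ¬ KP p κ F' Δ
  · obtain ⟨W, i1, i2, K, i3, i4, h1, h2, -⟩ := hABR F' Δ p hp hC.1 h B
    exact absurd h2 (hB W K)
  · push Not at h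
    obtain ⟨κ, hκ⟩ := h
    refine ⟨padicValNat p s + κ, fun x hx => ?_⟩
    have h1 := hKPD F D F' Δ p κ s hp hDA hκ hC x
    have := Fact.mk hp
    have h2 : dg F x ≠ 0 := (minpoly.natDegree_pos (hDA.alg x)).ne'
    have h3 := (padicValNat_dvd_iff_le h2).1 hx
    omega

/-- no long products of cyclic algebras over fields with the Tsen–Lang property -/
theorem no_cys (hTL1 : ST_TL1.{u}) (hCHP : ST_CHP.{u}) (hMT2 : ST_MT2.{u}) (hCYB : ST_CYB.{u})
    (hCYD : ST_CYD.{u}) (hIDD : ST_IDD.{u}) (hCS1 : ST_CS1.{u}) (hCS2 : ST_CS2.{u})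
    (hDVS : ST_DVS.{u})
    (F : Type u) [Field F] [PerfectField F] (m p B : ℕ) (hF : SC m F) (hp : p.Prime) (hB : 0 < B)
    (hm : p ^ m ≤ p * B) (W : Type u) [Field W] [Algebra F W] [FiniteDimensional F W]
    (K : Type u) [DivisionRing K] [Algebra W K] : ¬ CYS p W B K := by
  have : PerfectField W := Algebra.IsAlgebraic.perfectField (K := F) (L := W)
  have hW : SC m W := hTL1 F W m hF
  intro hK
  obtain ⟨j, rfl⟩ : ∃ j, B = j + 1 := ⟨B - 1, by omega⟩
  by_cases hc : (p : W) = 0
  · exact hCHP p j W hp hc K hK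
  · have : NeZero (p : W) := ⟨hc⟩
    have := Fact.mk hp
    have : NeZero p := ⟨hp.pos.ne'⟩
    set W' := CyclotomicField p W with hW'
    have : FiniteDimensional W W' := IsCyclotomicExtension.finiteDimensional {p} W W'
    have hζ := IsCyclotomicExtension.zeta_spec p W W'
    set ζ := IsCyclotomicExtension.zeta p W W'
    have : PerfectField W' := Algebra.IsAlgebraic.perfectField (K := W) (L := W')
    have hdeg : Module.finrank W W' < p := by
      have h1 : Module.finrank W W' = (minpoly W ζ).natDegree := by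
        rw [(hζ.powerBasis W).finrank, ← (hζ.powerBasis W).natDegree_minpoly]
        rfl
      have h2 : minpoly W ζ ∣ cyclotomic p W := by
        refine minpoly.dvd W ζ ?_
        rw [aeval_def, eval₂_eq_eval_map, map_cyclotomic, ← IsRoot.def]
        exact hζ.isRoot_cyclotomic hp.pos
      have h3 := natDegree_le_of_dvd h2 (cyclotomic_ne_zero p W)
      rw [natDegree_cyclotomic, Nat.totient_prime hp] at h3
      have := hp.one_lt
      omega
    have hCD := hCYD W K p (j + 1) hp hK
    have hCSK : CS W K := (hCS2 W).2 K _ hCD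
    have hCSW : CS W' (W' ⊗[W] K) := (hCS1 W).2 K W' hCSK
    obtain ⟨s, n, L, i1, i2, h1, h2, h3⟩ := (hCS2 W').1 (W' ⊗[W] K) hCSW
    obtain ⟨h4, n', h5, h6⟩ := hIDD W K W' L _ s hCD h2
    have hs : s = 1 := by
      have h7 : s ∣ p ^ (j + 1) := ⟨n', h5⟩
      obtain ⟨i, -, rfl⟩ := (Nat.dvd_prime_pow hp).1 h7
      rcases Nat.eq_zero_or_pos i with rfl | hi
      · rfl
      · exfalso
        have h8 : p ≤ p ^ i := Nat.le_self_pow hi.ne' p
        have h9 := Nat.le_of_dvd (Module.finrank_pos) h4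
        omega
    subst hs
    exact hMT2 p m (j + 1) W' ζ hp hζ (hTL1 W W' m hW) hm L
      (hCYB W K W' L p (j + 1) hp hK h2)

end Pool.Agent.Helper91.KZ
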