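import Pool.Agent.Helper91.KZ.All
import Pool.Agent.Helper91.KZ.Fin

/-!
# MP_1d885e_al: the final theorems
-/

namespace Pool.Agent.Helper91.KZ

open Polynomial TensorProduct All

universe u

theorem primary (F D : Type u) [Field F] [Uncountable F] [PerfectField F] [DivisionRing D]
    [Algebra F D] (hDA : DA F D) (p κ : ℕ) (hp : p.Prime) (h1 : KP p κ F D)
    (h2 : ∃ x : D, p ∣ (minpoly F x).natDegree) :
    ∃ (e : ℕ) (K C : Type u) (_ : DivisionRing K) (_ : Algebra F K) (_ : DivisionRing C)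
      (_ : Algebra F C), 0 < e ∧ Algebra.IsCentral F K ∧ Module.finrank F K = (p ^ e) ^ 2 ∧
      Algebra.IsCentral F C ∧ Algebra.IsAlgebraic F C ∧
      (∀ c : C, ¬ p ∣ (minpoly F c).natDegree) ∧
      (∀ x : D, ¬ p ^ (e + 1) ∣ (minpoly F x).natDegree) ∧ Nonempty (K ⊗[F] C ≃ₐ[F] D) := by
  obtain ⟨x₀, hx₀⟩ := h2
  have h3 : ¬ KP p 0 F D := fun h => h x₀ (by rw [zero_add, pow_one]; exact hx₀)
  obtain ⟨e, K, i1, i2, C, i3, i4, he, hK, hC, hKP, hiso⟩ := a_MAIN F D p κ hp hDA h1 h3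
  refine ⟨e, K, C, i1, i2, i3, i4, he, da_cen hK.1, hK.2.2.2, da_cen hC, da_alg hC, fun c hc => ?_,
    fun x hx => ?_, hiso⟩
  · exact hKP c (by rw [zero_add, pow_one]; exact hc)
  · have hCS : CS F K := (a_CS2 F).2 K _ hK
    have hcor : Cor F (K ⊗[F] C) D 1 := ⟨hDA, (a_DVS F).2.2.1 _ _ hiso⟩
    have h4 := a_KTN F C K D p 0 (p ^ e) 1 hp hC hKP hCS hK.2.2.2 hcor x
    have := Fact.mk hp
    have h5 : dg F x ≠ 0 := (minpoly.natDegree_pos (hDA.alg x)).ne'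
    have h6 := (padicValNat_dvd_iff_le h5).1 hx
    rw [padicValNat.prime_pow] at h4
    simp at h4
    omega

/-- the form of the conclusion in the problem -/
theorem posed (F D K C : Type u) [Field F] [DivisionRing D] [Algebra F D] [DivisionRing K]
    [Algebra F K] [DivisionRing C] [Algebra F C] (p e : ℕ) (hp : p.Prime) (he : 0 < e)
    (hc : Algebra.IsCentral F K) (hd : Module.finrank F K = (p ^ e) ^ 2)
    (hiso : Nonempty (K ⊗[F] C ≃ₐ[F] D)) :
    ∃ K' : Subfield D, (∃ a ∈ K', ∃ b ∈ K', a * b ≠ b * a) ∧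
      ∃ s : Finset D, (∀ t ∈ s, t ∈ K') ∧ ∀ x ∈ K', ∃ c : D → D,
        (∀ t ∈ s, c t ∈ K' ∧ ∀ y ∈ K', c t * y = y * c t) ∧ x = ∑ t ∈ s, c t * t :=
  a_QON F D K C (p ^ e) (Nat.one_lt_pow he.ne' hp.one_lt) (cd_of (pow_pos hp.pos e) hd) hiso

theorem dichotomy (F D : Type u) [Field F] [Uncountable F] [PerfectField F] [DivisionRing D]
    [Algebra F D] [Algebra.IsCentral F D] [Algebra.IsAlgebraic F D] (p : ℕ) (hp : p.Prime)
    (hpD : ∃ x : D, p ∣ (minpoly F x).natDegree) :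
    (∃ (e : ℕ) (K C : Type u) (_ : DivisionRing K) (_ : Algebra F K) (_ : DivisionRing C)
        (_ : Algebra F C), 0 < e ∧ Algebra.IsCentral F K ∧ Module.finrank F K = (p ^ e) ^ 2 ∧
        Algebra.IsCentral F C ∧ Algebra.IsAlgebraic F C ∧
        (∀ c : C, ¬ p ∣ (minpoly F c).natDegree) ∧
        (∀ x : D, ¬ p ^ (e + 1) ∣ (minpoly F x).natDegree) ∧ Nonempty (K ⊗[F] C ≃ₐ[F] D)) ∨
      ((∀ k : ℕ, ∃ x : D, p ^ k ∣ (minpoly F x).natDegree) ∧
        ∀ j : ℕ, ∃ (W K : Type u) (_ : Field W) (_ : Algebra F W) (_ : DivisionRing K)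
          (_ : Algebra W K), FiniteDimensional F W ∧ Algebra.IsCentral W K ∧
          IsCyclicProduct p W j K) := by
  have hDA := da_of F D
  by_cases h : ∃ κ, KP p κ F D
  · obtain ⟨κ, hκ⟩ := h
    exact Or.inl (primary F D hDA p κ hp hκ hpD)
  · refine Or.inr ⟨fun k => ?_, fun j => ?_⟩
    · by_contra hk
      push Not at hk
      refine h ⟨k, fun x hx => hk x (dvd_trans (pow_dvd_pow p (Nat.le_succ k)) hx)⟩
    · obtain ⟨W, i1, i2, K, i3, i4, h1, h2, h3⟩ := a_ABR F D p hp hDA (fun κ hκ => h ⟨κ, hκ⟩) j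
      exact ⟨W, K, i1, i2, i3, i4, h1, da_cen h3.1, cys_of p W j K h2⟩

theorem tsenlang (F F' D : Type u) [Field F] [Uncountable F] [PerfectField F] [Field F']
    [Algebra F F'] [FiniteDimensional F F'] [DivisionRing D] [Algebra F D] [Algebra.IsCentral F D]
    [Algebra.IsAlgebraic F D] (m : ℕ)
    (hF : IsTsenLang m F' ∨ ∃ (k : Type u) (_ : Field k) (_ : IsAlgClosed k) (_ : Algebra k F')
      (t : Fin m → F'), IsTranscendenceBasis k t) (hD : ∃ a b : D, a * b ≠ b * a) :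
    (∃ K : Subfield D, (∃ a ∈ K, ∃ b ∈ K, a * b ≠ b * a) ∧
      ∃ s : Finset D, (∀ t ∈ s, t ∈ K) ∧ ∀ x ∈ K, ∃ c : D → D,
        (∀ t ∈ s, c t ∈ K ∧ ∀ y ∈ K, c t * y = y * c t) ∧ x = ∑ t ∈ s, c t * t) ∧
    (∀ p : ℕ, p.Prime → (∃ x : D, p ∣ (minpoly F x).natDegree) →
      ∃ (e : ℕ) (K C : Type u) (_ : DivisionRing K) (_ : Algebra F K) (_ : DivisionRing C)
        (_ : Algebra F C), 0 < e ∧ Algebra.IsCentral F K ∧ Module.finrank F K = (p ^ e) ^ 2 ∧
        Algebra.IsCentral F C ∧ Algebra.IsAlgebraic F C ∧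
        (∀ c : C, ¬ p ∣ (minpoly F c).natDegree) ∧
        (∀ x : D, ¬ p ^ (e + 1) ∣ (minpoly F x).natDegree) ∧ Nonempty (K ⊗[F] C ≃ₐ[F] D)) ∧
    (Module.finrank F F' = 1 → 2 ≤ m) := by
  have hDA := da_of F D
  have hSC : SC m F' := by
    rcases hF with h | ⟨k, i1, i2, i3, t, ht⟩
    · exact h
    · exact a_TL4 k F' m t ht
  have : PerfectField F' := Algebra.IsAlgebraic.perfectField (K := F) (L := F')
  have key : ∀ p : ℕ, p.Prime → (∃ x : D, p ∣ (minpoly F x).natDegree) →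
      ∃ (e : ℕ) (K C : Type u) (_ : DivisionRing K) (_ : Algebra F K) (_ : DivisionRing C)
        (_ : Algebra F C), 0 < e ∧ Algebra.IsCentral F K ∧ Module.finrank F K = (p ^ e) ^ 2 ∧
        Algebra.IsCentral F C ∧ Algebra.IsAlgebraic F C ∧
        (∀ c : C, ¬ p ∣ (minpoly F c).natDegree) ∧
        (∀ x : D, ¬ p ^ (e + 1) ∣ (minpoly F x).natDegree) ∧ Nonempty (K ⊗[F] C ≃ₐ[F] D) := by
    intro p hp hx
    obtain ⟨κ, hκ⟩ := kp_bound a_ABR a_TS a_KPD F D F' p hp hDA (p ^ m)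
      (fun W _ _ _ K _ _ => no_cys a_TL1 a_CHP a_MT2 a_CYB a_CYD a_IDD a_CS1 a_CS2 a_DVS F' m p
        (p ^ m) hSC hp (pow_pos hp.pos m) (Nat.le_mul_of_pos_left _ hp.pos) W K)
    exact primary F D hDA p κ hp hκ hx
  refine ⟨?_, key, fun h1 => ?_⟩
  · obtain ⟨a, b, hab⟩ := hD
    have h1 : dg F a ≠ 1 := by
      intro h
      have h2 := minpoly.natDegree_eq_one_iff.1 h
      obtain ⟨c, hc⟩ := h2
      apply hab
      rw [← hc]
      exact Algebra.commutes c b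
    obtain ⟨p, hp, hpd⟩ := Nat.exists_prime_and_dvd h1
    obtain ⟨e, K, C, i1, i2, i3, i4, g1, g2, g3, g4, g5, g6, g7, g8⟩ := key p hp ⟨a, hpd⟩
    exact posed F D K C p e hp g1 g2 g3 g8
  · by_contra hm
    obtain ⟨a, b, hab⟩ := hD
    apply hab
    have hbij : Function.Bijective (algebraMap F F') := by
      refine ⟨(algebraMap F F').injective, ?_⟩
      exact Algebra.surjective_algebraMap_iff.2 (Subalgebra.bot_eq_top_of_finrank_eq_one h1).symm
    have hSF : SC m F := by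
      let ψ : F' ≃+* F := (RingEquiv.ofBijective (algebraMap F F') hbij).symm
      let _ : Algebra F' F := ψ.toRingHom.toAlgebra
      have hfin : FiniteDimensional F' F := by
        refine FiniteDimensional.of_surjective (Algebra.linearMap F' F) ?_
        exact ψ.surjective
      exact a_TL1 F' F m hSC
    refine a_COM F D hDA (fun p hp W _ _ _ K _ _ => ?_) a b
    refine no_cys a_TL1 a_CHP a_MT2 a_CYB a_CYD a_IDD a_CS1 a_CS2 a_DVS F m p 1 hSF hp one_pos ?_ W K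
    rw [mul_one]
    calc p ^ m ≤ p ^ 1 := Nat.pow_le_pow_right hp.pos (by omega)
      _ = p := pow_one p

end Pool.Agent.Helper91.KZ
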