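import Mathlib

/-!
# MP_1d885e_al: the definition used in the final statements
-/

namespace Pool.Agent.Helper91.KZ

open TensorProduct

universe u

/-- `K` is a tensor product over `W` of `j` cyclic division algebras of degree `p` with centre `W`: a cyclic division
algebra of degree `p` is a division algebra of dimension `p ^ 2` over its centre `W` that contains a Galois extension
`T` of `W` of degree `p`. -/
inductive IsCyclicProduct (p : ℕ) (W : Type u) [Field W] :
    ℕ → ∀ (K : Type u) [DivisionRing K] [Algebra W K], Prop
  | zero (K : Type u) [DivisionRing K] [Algebra W K] :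
      Module.finrank W K = 1 → IsCyclicProduct p W 0 K
  | succ (j : ℕ) (K₁ K₂ T K : Type u) [DivisionRing K₁] [Algebra W K₁] [DivisionRing K₂]
      [Algebra W K₂] [Field T] [Algebra W T] [DivisionRing K] [Algebra W K] :
      IsCyclicProduct p W j K₁ → Algebra.IsCentral W K₂ → Module.finrank W K₂ = p ^ 2 →
      IsGalois W T → Module.finrank W T = p → Nonempty (T →ₐ[W] K₂) →
      Nonempty (K₁ ⊗[W] K₂ ≃ₐ[W] K) → IsCyclicProduct p W (j + 1) K

/-- Every system of `r` forms of degree `d > 0` in more than `r * d ^ m` variables over `F` has a nontrivial zero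
(a `C_m` field, in the form for systems). -/
def IsTsenLang (m : ℕ) (F : Type u) [Field F] : Prop :=
  ∀ (r n d : ℕ), 0 < d → r * d ^ m < n → ∀ f : Fin r → MvPolynomial (Fin n) F,
    (∀ k, (f k).IsHomogeneous d) → ∃ v : Fin n → F, v ≠ 0 ∧ ∀ k, MvPolynomial.eval v (f k) = 0

end Pool.Agent.Helper91.KZ
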