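import Pool.Agent.Helper91.KZ.StM

/-!
# MP_1d885e_al: statements, part L (fields of finite transcendence degree)
-/

namespace Pool.Agent.Helper91.KZ

open Polynomial TensorProduct

universe u

noncomputable section

/-- (TL0) algebraically closed fields -/
def ST_TL0 : Prop := ∀ (k : Type u) [Field k] [IsAlgClosed k], SC 0 k

/-- (TL1) finite extensions -/
def ST_TL1 : Prop := ∀ (K L : Type u) [Field K] [Field L] [Algebra K L] [FiniteDimensional K L]
  (i : ℕ), SC i K → SC i L

/-- (TL2) rational function fields -/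
def ST_TL2 : Prop := ∀ (K L : Type u) [Field K] [Field L] [Algebra K[X] L] [IsFractionRing K[X] L]
  (i : ℕ), SC i K → SC (i + 1) L

/-- (TL3) algebraic extensions -/
def ST_TL3 : Prop := ∀ (K L : Type u) [Field K] [Field L] [Algebra K L] [Algebra.IsAlgebraic K L]
  (i : ℕ), SC i K → SC i L

/-- (TL4) fields of finite transcendence degree over an algebraically closed field -/
def ST_TL4 : Prop := ∀ (k F : Type u) [Field k] [IsAlgClosed k] [Field F] [Algebra k F] (m : ℕ)
  (x : Fin m → F), IsTranscendenceBasis k x → SC m F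

/-- (KUM) generators of a cyclic algebra in the presence of roots of unity -/
def ST_KUM : Prop := ∀ (W K T : Type u) [Field W] [PerfectField W] [DivisionRing K] [Algebra W K]
  [Field T] [Algebra W T] [IsGalois W T] (p : ℕ) (ω : W), p.Prime → IsPrimitiveRoot ω p →
  CD W K p → Module.finrank W T = p → Nonempty (T →ₐ[W] K) →
  ∃ (x y : K) (a b : W), x ^ p = algebraMap W K a ∧ y ^ p = algebraMap W K b ∧
    y * x = algebraMap W K ω * (x * y) ∧ y ≠ 0 ∧ x ≠ 0 ∧ dg W x = p

/-- (QBN) the `p`-th power of a sum -/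
def ST_QBN : Prop := ∀ (W K : Type u) [Field W] [DivisionRing K] [Algebra W K] (p : ℕ) (ω : W)
  (u v : K), p.Prime → IsPrimitiveRoot ω p → v * u = algebraMap W K ω * (u * v) →
  (u + v) ^ p = u ^ p + v ^ p

/-- (NRF) the norm form -/
def ST_NRF : Prop := ∀ (W K : Type u) [Field W] [DivisionRing K] [Algebra W K] (p : ℕ) (ω a b : W)
  (x y : K), p.Prime → IsPrimitiveRoot ω p → x ^ p = algebraMap W K a →
  y ^ p = algebraMap W K b → y * x = algebraMap W K ω * (x * y) → y ≠ 0 → x ≠ 0 → dg W x = p →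
  ∃ φ : MvPolynomial (Fin p) W, φ.IsHomogeneous p ∧ ∀ c : Fin p → W,
    ((∑ l, algebraMap W K (c l) * x ^ (l : ℕ)) * y) ^ p = algebraMap W K (MvPolynomial.eval c φ)

/-- (MT1) the form attached to a product of cyclic algebras -/
def ST_MT1 : Prop := ∀ (p : ℕ) (W : Type u) [Field W] [PerfectField W] (ω : W), p.Prime →
  IsPrimitiveRoot ω p → ∀ (j : ℕ) (K : Type u) [DivisionRing K] [Algebra W K], CYS p W j K →
  ∃ (ι : Type) (_ : Fintype ι) (φ : MvPolynomial ι W) (L : (ι → W) →ₗ[W] K),
    Fintype.card ι = p * j + 1 ∧ Function.Injective L ∧ φ.IsHomogeneous p ∧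
    ∀ c, L c ^ p = algebraMap W K (MvPolynomial.eval c φ)

/-- (MT2) no long products of cyclic algebras -/
def ST_MT2 : Prop := ∀ (p i j : ℕ) (W : Type u) [Field W] [PerfectField W] (ω : W), p.Prime →
  IsPrimitiveRoot ω p → SC i W → p ^ i ≤ p * j → ∀ (K : Type u) [DivisionRing K] [Algebra W K],
  ¬ CYS p W j K

/-- (CHP) characteristic `p`: perfect fields have no cyclic division algebras of degree `p` -/
def ST_CHP : Prop := ∀ (p j : ℕ) (W : Type u) [Field W] [PerfectField W], p.Prime → (p : W) = 0 →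
  ∀ (K : Type u) [DivisionRing K] [Algebra W K], ¬ CYS p W (j + 1) K

/-- (FUN) fields of finite transcendence degree over an algebraically closed field -/
def ST_FUN : Prop := ∀ (k F : Type u) [Field k] [IsAlgClosed k] [Field F] [PerfectField F]
  [Algebra k F] (m : ℕ) (x : Fin m → F), IsTranscendenceBasis k x → ∀ p B : ℕ, p.Prime → 0 < B →
  p ^ m ≤ p * B → ∀ (W : Type u) [Field W] [Algebra F W] [FiniteDimensional F W] (K : Type u)
  [DivisionRing K] [Algebra W K], ¬ CYS p W B K

/-- (QON) the conclusion in the form of the problem -/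
def ST_QON : Prop := ∀ (F D K C : Type u) [Field F] [DivisionRing D] [Algebra F D]
  [DivisionRing K] [Algebra F K] [Ring C] [Algebra F C] (n : ℕ), 1 < n → CD F K n →
  Nonempty (K ⊗[F] C ≃ₐ[F] D) → ∃ K' : Subfield D, (∃ a ∈ K', ∃ b ∈ K', a * b ≠ b * a) ∧
    ∃ s : Finset D, (∀ t ∈ s, t ∈ K') ∧ ∀ x ∈ K', ∃ c : D → D,
      (∀ t ∈ s, c t ∈ K' ∧ ∀ y ∈ K', c t * y = y * c t) ∧ x = ∑ t ∈ s, c t * t

/-- (COM) fields without cyclic algebras of prime degree over finite extensions -/
def ST_COM : Prop := ∀ (F D : Type u) [Field F] [Uncountable F] [PerfectField F]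
  [DivisionRing D] [Algebra F D], DA F D → (∀ p : ℕ, p.Prime → ∀ (W : Type u) [Field W]
    [Algebra F W] [FiniteDimensional F W] (K : Type u) [DivisionRing K] [Algebra W K],
    ¬ CYS p W 1 K) → ∀ x y : D, x * y = y * x

end

end Pool.Agent.Helper91.KZ
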