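import Pool.Agent.Helper91.KZ.Pub
import Pool.Agent.Helper91.KZ.StL

/-!
# MP_1d885e_al: translation between the definitions of the final statements and those of the proof
-/

namespace Pool.Agent.Helper91.KZ

open TensorProduct

universe u

theorem da_of (E D : Type u) [Field E] [DivisionRing D] [Algebra E D] [hc : Algebra.IsCentral E D]
    [ha : Algebra.IsAlgebraic E D] : DA E D := by
  refine ⟨fun x => (ha.isAlgebraic x).isIntegral, fun x hx => ?_⟩
  have h : x ∈ Subalgebra.center E D := by
    rw [Subalgebra.mem_center_iff]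
    intro b
    exact (hx b).symm
  have h2 := hc.out h
  rw [Algebra.mem_bot] at h2
  exact h2

theorem da_cen {E D : Type u} [Field E] [DivisionRing D] [Algebra E D] (h : DA E D) :
    Algebra.IsCentral E D := by
  refine ⟨fun x hx => ?_⟩
  rw [Subalgebra.mem_center_iff] at hx
  rw [Algebra.mem_bot]
  exact h.cen x fun y => (hx y).symm

theorem da_alg {E D : Type u} [Field E] [DivisionRing D] [Algebra E D] (h : DA E D) :
    Algebra.IsAlgebraic E D :=
  ⟨fun x => (h.alg x).isAlgebraic⟩

theorem cd_of {E D : Type u} [Field E] [DivisionRing D] [Algebra E D] [Algebra.IsCentral E D]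
    {n : ℕ} (hn : 0 < n) (h : Module.finrank E D = n ^ 2) : CD E D n := by
  have hf : FiniteDimensional E D := Module.finite_of_finrank_pos (by rw [h]; positivity)
  have : Algebra.IsAlgebraic E D := ⟨fun x => (IsIntegral.of_finite E x).isAlgebraic⟩
  exact ⟨da_of E D, hn, hf, h⟩

theorem cys_of (p : ℕ) (W : Type u) [Field W] : ∀ (j : ℕ) (K : Type u)
    [DivisionRing K] [Algebra W K], CYS p W j K → IsCyclicProduct p W j K
  | 0, K, _, _, h => IsCyclicProduct.zero K h
  | j + 1, K, _, _, h => by
    obtain ⟨K₁, K₂, i1, i2, i3, i4, h1, h2, ⟨T, i5, i6, h3, h4, h5⟩, h6⟩ := h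
    exact IsCyclicProduct.succ j K₁ K₂ T K (cys_of p W j K₁ h1) (da_cen h2.1) h2.2.2.2 h3 h4 h5 h6

end Pool.Agent.Helper91.KZ
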