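import Pool.Agent.Helper91.KZ.Defs

/-!
# MP_1d885e_al: statements, part G (generic minimal polynomials and norms)
-/

namespace Pool.Agent.Helper91.KZ

open Polynomial TensorProduct
open scoped PowerSeries

universe u

noncomputable section

/-- (DET) independence over `K[X]` is witnessed by a determinant -/
def ST_DET : Prop := ∀ (K A : Type u) [Field K] [Ring A] [Algebra K A] (n : ℕ) (v : Fin n → A[X]),
  (∀ c : Fin n → K[X], ∑ i, ca A (c i) * v i = 0 → c = 0) →
  ∃ f : Fin n → (A →ₗ[K] K), (Matrix.of fun i j => fp (f i) (v j)).det ≠ 0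

/-- (CMP) completeness: elimination of the higher powers -/
def ST_CMP : Prop := ∀ (K A : Type u) [Field K] [Ring A] [Algebra K A] (n d : ℕ) (z : A⟦X⟧)
  (c : ℕ → K⟦X⟧), d ≤ n → ∑ j ∈ Finset.range (n + 1), (c j).map (algebraMap K A) * z ^ j = 0 →
  (c d).constantCoeff ≠ 0 → (∀ j, d < j → j ≤ n → (c j).constantCoeff = 0) →
  ∃ b : ℕ → K⟦X⟧, z ^ d = ∑ j ∈ Finset.range d, (b j).map (algebraMap K A) * z ^ j

/-- (IND) independence over `K[X]` gives independence over `K⟦X⟧` -/
def ST_IND : Prop := ∀ (K A : Type u) [Field K] [Ring A] [Algebra K A] (z : A[X]) (P : K[X][X]),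
  GM z P → ∀ b : Fin P.natDegree → K⟦X⟧,
    ∑ j, (b j).map (algebraMap K A) * (z : A⟦X⟧) ^ (j : ℕ) = 0 → b = 0

/-- (IN2) the same after base change and translation -/
def ST_IN2 : Prop := ∀ (K A : Type u) [Field K] [Ring A] [Algebra K A] (K' : Type u) [Field K']
  [Algebra K K'] (n : ℕ) (v : Fin n → A[X]) (l : K'),
  (∀ c : Fin n → K[X], ∑ i, ca A (c i) * v i = 0 → c = 0) → ∀ b : Fin n → K'⟦X⟧,
    ∑ j, (b j).map (algebraMap K' (K' ⊗[K] A)) *
      ((((v j).map (Algebra.TensorProduct.includeRight : A →ₐ[K] K' ⊗[K] A).toRingHom).comp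
        (X + C (algebraMap K' (K' ⊗[K] A) l)) : (K' ⊗[K] A)[X]) : (K' ⊗[K] A)⟦X⟧) = 0 → b = 0

/-- (BC) base change -/
def ST_BC : Prop := ∀ (K A : Type u) [Field K] [Ring A] [Algebra K A] (K' : Type u) [Field K']
  [Algebra K K'] (z : A[X]) (P : K[X][X]), GM z P →
  GM (K := K') (A := K' ⊗[K] A)
    (z.map (Algebra.TensorProduct.includeRight : A →ₐ[K] K' ⊗[K] A).toRingHom)
    (P.map (mapRingHom (algebraMap K K')))

/-- (TRS) translation and shift -/
def ST_TRS : Prop := ∀ (K A : Type u) [Field K] [Ring A] [Algebra K A] (z : A[X]) (P : K[X][X])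
  (l m : K), GM z P →
  GM (z.comp (X + C (algebraMap K A l))) (P.map (compRingHom (X + C l))) ∧
  GM (z - C (algebraMap K A m)) (P.comp (X + C (C m)))

/-- (INT) existence: elements of `A[X]` algebraic over `K[X]` are integral -/
def ST_INT : Prop := ∀ (K A : Type u) [Field K] [Ring A] [Nontrivial A] [Algebra K A] (z : A[X])
  (Q : K[X][X]), Q ≠ 0 → ev Q z = 0 → ∃ P : K[X][X], GM z P

/-- (UL) invertible constant term -/
def ST_UL : Prop := ∀ (K A : Type u) [Field K] [Ring A] [Nontrivial A] [Algebra K A] (z : A[X])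
  (P : K[X][X]), GM z P → IsUnit (z.coeff 0) → (P.coeff 0).coeff 0 ≠ 0

/-- (NU) roots of specialisations are not invertible -/
def ST_NU : Prop := ∀ (K A : Type u) [Field K] [Ring A] [Nontrivial A] [Algebra K A] (z : A[X])
  (P : K[X][X]) (l m : K), GM z P → (P.map (evalRingHom l)).eval m = 0 →
  ¬ IsUnit (vl l z - algebraMap K A m)

/-- (SPC) specialisation at a point with an irreducible minimal polynomial -/
def ST_SPC : Prop := ∀ (K A : Type u) [Field K] [Ring A] [Nontrivial A] [Algebra K A] (z : A[X])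
  (P : K[X][X]) (l : K), GM z P → IsIntegral K (vl l z) → Irreducible (minpoly K (vl l z)) →
  ∃ j : ℕ, P.map (evalRingHom l) = minpoly K (vl l z) ^ j

/-- (GEN) generic specialisations have the generic degree -/
def ST_GEN : Prop := ∀ (K A : Type u) [Field K] [Infinite K] [Ring A] [Nontrivial A] [Algebra K A]
  (z : A[X]) (P : K[X][X]), GM z P → ∃ l : K, IsIntegral K (vl l z) ∧ dg K (vl l z) = P.natDegree

/-- (REV) reversal of linear polynomials -/
def ST_REV : Prop := ∀ (K A : Type u) [Field K] [Ring A] [Nontrivial A] [Algebra K A] (a b : A)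
  (P P' : K[X][X]), GM (C a + C b * X) P → GM (C b + C a * X) P' →
  P.natDegree = P'.natDegree ∧ (P.coeff 0).natDegree ≤ P.natDegree ∧
    (P.coeff 0).coeff P.natDegree = (P'.coeff 0).coeff 0

/-- (AMI) Amitsur: over an uncountable field `A[X]` is algebraic over `K[X]` -/
def ST_AMI : Prop := ∀ (K A : Type u) [Field K] [Uncountable K] [Ring A] [Algebra K A] (z : A[X]),
  (∀ x : A, IsIntegral K x) → ∃ Q : K[X][X], Q ≠ 0 ∧ ev Q z = 0

/-- (MUL) multiplicativity of the norm -/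
def ST_MUL : Prop := ∀ (K D : Type u) [Field K] [Uncountable K] [DivisionRing D] [Algebra K D],
  (∀ x : D, IsIntegral K x) → ∀ x y : D, x ≠ 0 → y ≠ 0 → ∃ w : D, dg K x ∣ dg K w ∧
    dg K y ∣ dg K w ∧ dg K (x * y) ∣ dg K w ∧
    NN K (dg K w) (x * y) = NN K (dg K w) x * NN K (dg K w) y

/-- (FDG) degrees after a finite extension of the base -/
def ST_FDG : Prop := ∀ (K D : Type u) [Field K] [Uncountable K] [PerfectField K] [DivisionRing D]
  [Algebra K D], (∀ x : D, IsIntegral K x) → ∀ (K' : Type u) [Field K'] [Algebra K K']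
  [FiniteDimensional K K'] (x : K' ⊗[K] D), IsIntegral K' x → Irreducible (minpoly K' x) →
  ∃ w : D, dg K' x ∣ dg K w

/-- (NRM) common multiplicative norm for finitely many elements -/
def ST_NRM : Prop := ∀ (K D : Type u) [Field K] [Uncountable K] [DivisionRing D] [Algebra K D]
  (p : ℕ), p.Prime → (∀ x : D, IsIntegral K x) → KP p 0 K D → ∀ S : Finset D, (∀ x ∈ S, x ≠ 0) →
  ∃ q₀ : ℕ, 0 < q₀ ∧ ¬ p ∣ q₀ ∧ ∀ q, q₀ ∣ q → ∀ x ∈ S, dg K x ∣ q ∧ NN K q x ≠ 0 ∧
    ∀ y ∈ S, NN K q (x * y) = NN K q x * NN K q y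

/-- (NSC) norm of scalars, semilinear invariance, powers -/
def ST_NSC : Prop := ∀ (K D : Type u) [Field K] [DivisionRing D] [Algebra K D],
  (∀ (q : ℕ) (a : K), NN K q (algebraMap K D a) = a ^ q) ∧
  (∀ (φ : D ≃+* D) (σ : K ≃+* K), (∀ a, φ (algebraMap K D a) = algebraMap K D (σ a)) →
    ∀ x : D, IsIntegral K x → dg K (φ x) = dg K x ∧ ∀ q, NN K q (φ x) = σ (NN K q x)) ∧
  (∀ (q r : ℕ) (x : D), dg K x ∣ q → NN K (q * r) x = NN K q x ^ r)

end

end Pool.Agent.Helper91.KZ
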