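import Pool.Agent.Helper91.KZ.StT

/-!
# MP_1d885e_al: statements, part M (the main argument)
-/

namespace Pool.Agent.Helper91.KZ

open Polynomial TensorProduct

universe u

noncomputable section

/-- (WAR) two cyclic algebras with `p`-free complements -/
def ST_WAR : Prop := ∀ (W T R : Type u) [Field W] [Uncountable W] [PerfectField W] [Field T]
  [Algebra W T] [FiniteDimensional W T] [IsGalois W T] [Ring R] [Algebra W R] (p : ℕ)
  (σ : T ≃ₐ[W] T) (z₁ z₂ : W), p.Prime → Module.finrank W T = p → σ ≠ 1 →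
  CPF W T R p σ z₁ → CPF W T R p σ z₂ → ∃ t : T, z₁ = Algebra.norm W t * z₂

/-- (TWF) composita with cyclic extensions of degree `p` -/
def ST_TWF : Prop := ∀ (E T W : Type u) [Field E] [Field T] [Algebra E T] [FiniteDimensional E T]
  [IsGalois E T] [Field W] [Algebra E W] (p : ℕ) (σ : T ≃ₐ[E] T), p.Prime →
  Module.finrank E T = p → σ ≠ 1 →
  (Nonempty (T →ₐ[E] W) → (∀ w : W, ∃ τ : W ⊗[E] T, Algebra.norm W τ = w) ∧
    ∃ x y : W ⊗[E] T, x ≠ 0 ∧ y ≠ 0 ∧ x * y = 0) ∧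
  (IsEmpty (T →ₐ[E] W) → ∃ (T' : Type u) (_ : Field T') (_ : Algebra W T') (σ' : T' ≃ₐ[W] T')
    (e : W ⊗[E] T ≃ₐ[W] T'), Cps E T W T' p σ σ' e)

/-- the field generated by `y ^ p` and the cyclic algebra over it -/
structure KZD (E T Δ : Type u) [Field E] [Field T] [Algebra E T] [DivisionRing Δ] [Algebra E Δ]
    (p : ℕ) (σ : T ≃ₐ[E] T) (i : T →ₐ[E] Δ) (y : Δ) where
  Z : Type u
  [fZ : Field Z]
  [aZ : Algebra E Z]
  ζ : Z
  T' : Type u
  [fT : Field T']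
  [aT : Algebra Z T']
  σ' : T' ≃ₐ[Z] T'
  e : Z ⊗[E] T ≃ₐ[Z] T'
  K : Type u
  [dK : DivisionRing K]
  [aK : Algebra Z K]
  i' : T' →ₐ[Z] K
  y' : K
  h : K →+* Δ
  Δ' : Type u
  [dD : DivisionRing Δ']
  [aD : Algebra Z Δ']
  fin : FiniteDimensional E Z
  z0 : ζ ≠ 0
  rt : aeval ζ (minpoly E (y ^ p)) = 0
  gen : ∀ (W : Type u) [Field W] [Algebra E W] (w : W), aeval w (minpoly E (y ^ p)) = 0 →
    ∃ φ : Z →ₐ[E] W, φ ζ = w
  cps : Cps E T Z T' p σ σ' e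
  cd : CD Z K p
  cyc : Cyc Z T' K p σ' i' y' ζ
  ha : ∀ a : E, h (algebraMap Z K (algebraMap E Z a)) = algebraMap E Δ a
  hi : ∀ t, h (i' (e (1 ⊗ₜ t))) = i t
  hy : h y' = y
  emb : Nonempty (T' →+* Δ)
  ez : Nonempty (Z →ₐ[E] Δ)
  da : DA Z Δ'
  dv : DV (K ⊗[Z] Δ')
  mi : MI Z (Z ⊗[E] Δ) (K ⊗[Z] Δ') (Module.finrank E Z)

attribute [instance] KZD.fZ KZD.aZ KZD.fT KZD.aT KZD.dK KZD.aK KZD.dD KZD.aD

/-- (KZ0) existence -/
def ST_KZ0 : Prop := ∀ (E T Δ : Type u) [Field E] [PerfectField E] [Field T] [Algebra E T]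
  [FiniteDimensional E T] [IsGalois E T] [DivisionRing Δ] [Algebra E Δ] (p : ℕ) (σ : T ≃ₐ[E] T)
  (i : T →ₐ[E] Δ) (y : Δ), p.Prime → Module.finrank E T = p → σ ≠ 1 → DA E Δ → y ≠ 0 →
  (∀ t, y * i t = i (σ t) * y) → Nonempty (KZD E T Δ p σ i y)

/-- (KZ1) the case where the centralizer of `T` is `p`-free -/
def ST_KZ1 : Prop := ∀ (E T Δ : Type u) [Field E] [Uncountable E] [PerfectField E] [Field T]
  [Algebra E T] [FiniteDimensional E T] [IsGalois E T] [DivisionRing Δ] [Algebra E Δ] (p : ℕ)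
  (σ : T ≃ₐ[E] T) (i : T →ₐ[E] Δ) (y : Δ), p.Prime → Module.finrank E T = p → σ ≠ 1 → DA E Δ →
  y ≠ 0 → (∀ t, y * i t = i (σ t) * y) →
  (∀ (C : Type u) [DivisionRing C] [Algebra T C] (s : ℕ), Cor T (T ⊗[E] Δ) C s → KP p 0 T C) →
  ∀ d : KZD E T Δ p σ i y, ¬ p ∣ Module.finrank E d.Z ∧ KP p 0 d.Z d.Δ'

/-- (KZW) the structure over finite extensions -/
def ST_KZW : Prop := ∀ (E T Δ : Type u) [Field E] [Uncountable E] [PerfectField E] [Field T]
  [Algebra E T] [FiniteDimensional E T] [IsGalois E T] [DivisionRing Δ] [Algebra E Δ] (p : ℕ)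
  (σ : T ≃ₐ[E] T) (i : T →ₐ[E] Δ) (y : Δ), p.Prime → Module.finrank E T = p → σ ≠ 1 → DA E Δ →
  ∀ d : KZD E T Δ p σ i y, KP p 0 d.Z d.Δ' →
  ∀ (W T'' : Type u) [Field W] [Algebra E W] [FiniteDimensional E W] [Field T''] [Algebra W T'']
    (w : W) (σ'' : T'' ≃ₐ[W] T'') (e'' : W ⊗[E] T ≃ₐ[W] T''),
    aeval w (minpoly E (y ^ p)) = 0 → Cps E T W T'' p σ σ'' e'' →
    CPF W T'' (W ⊗[E] Δ) p σ'' w

/-- (EHY) quotients of conjugates are norms -/
def ST_EHY : Prop := ∀ (E T Δ : Type u) [Field E] [Uncountable E] [PerfectField E] [Field T]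
  [Algebra E T] [FiniteDimensional E T] [IsGalois E T] [DivisionRing Δ] [Algebra E Δ] (p : ℕ)
  (σ : T ≃ₐ[E] T) (i : T →ₐ[E] Δ) (y : Δ), p.Prime → Module.finrank E T = p → σ ≠ 1 → DA E Δ →
  ∀ d : KZD E T Δ p σ i y, KP p 0 d.Z d.Δ' →
  ∀ (W : Type u) [Field W] [Algebra E W] [FiniteDimensional E W] (i₁ i₂ : d.Z →ₐ[E] W),
    ∃ τ : W ⊗[E] T, i₁ d.ζ = Algebra.norm W τ * i₂ d.ζ

/-- (AR1) the norm argument -/
def ST_AR1 : Prop := ∀ (E T Z : Type u) [Field E] [PerfectField E] [Field T] [Algebra E T]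
  [FiniteDimensional E T] [Field Z] [Algebra E Z] [FiniteDimensional E Z] (z : Z), z ≠ 0 →
  (∀ (W : Type u) [Field W] [Algebra E W] [FiniteDimensional E W] (i₁ i₂ : Z →ₐ[E] W),
    ∃ τ : W ⊗[E] T, i₁ z = Algebra.norm W τ * i₂ z) →
  ∃ τ : Z ⊗[E] T, z ^ Module.finrank E Z = Algebra.norm Z τ * algebraMap E Z (Algebra.norm E z)

/-- (ARI) descent of norm classes -/
def ST_ARI : Prop := ∀ (E T Z : Type u) [Field E] [PerfectField E] [Field T] [Algebra E T]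
  [FiniteDimensional E T] [Field Z] [Algebra E Z] [FiniteDimensional E Z] (p : ℕ) (z : Z),
  p.Prime → Module.finrank E T = p → ¬ p ∣ Module.finrank E Z → z ≠ 0 →
  (∀ (W : Type u) [Field W] [Algebra E W] [FiniteDimensional E W] (i₁ i₂ : Z →ₐ[E] W),
    ∃ τ : W ⊗[E] T, i₁ z = Algebra.norm W τ * i₂ z) →
  ∃ (f : E) (τ : Z ⊗[E] T), f ≠ 0 ∧ algebraMap E Z f = Algebra.norm Z τ * z

/-- (E1) a cyclic factor of degree `p` -/
def ST_E1 : Prop := ∀ (E T Δ : Type u) [Field E] [Uncountable E] [PerfectField E] [Field T]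
  [Algebra E T] [FiniteDimensional E T] [IsGalois E T] [DivisionRing Δ] [Algebra E Δ] (p : ℕ),
  p.Prime → Module.finrank E T = p → DA E Δ → Nonempty (T →ₐ[E] Δ) →
  (∀ (C : Type u) [DivisionRing C] [Algebra T C] (s : ℕ), Cor T (T ⊗[E] Δ) C s → KP p 0 T C) →
  ∃ (K : Type u) (_ : DivisionRing K) (_ : Algebra E K) (Δ' : Type u) (_ : DivisionRing Δ')
    (_ : Algebra E Δ'), CD E K p ∧ Nonempty (T →ₐ[E] K) ∧ DA E Δ' ∧ KP p 0 E Δ' ∧
    Nonempty (K ⊗[E] Δ' ≃ₐ[E] Δ)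

/-- (KEY) comparison of classes -/
def ST_KEY : Prop := ∀ (M N Y K Δ : Type u) [Field M] [Uncountable M] [PerfectField M] [Field N]
  [Algebra M N] [FiniteDimensional M N] [IsGalois M N] [Ring Y] [Algebra M Y] [DivisionRing K]
  [Algebra M K] [DivisionRing Δ] [Algebra M Δ] (p b r q₁ : ℕ) (T₁ : TW M N Y), p.Prime →
  Module.finrank M N = p ^ b → CD M K p → MI N (N ⊗[M] K) N p → DA M Δ → KP p 0 M Δ →
  MI M Y (K ⊗[M] Δ) r → 0 < q₁ → ¬ p ∣ q₁ →
  (∀ q, q₁ ∣ q → 0 < q → Coh (fun g h => NN N q (T₁.U g h)) (fun _ _ => 1)) → False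

/-- (B7) the tensor product of a `p`-free algebra and an algebra of degree divisible by `p` -/
def ST_B7 : Prop := ∀ (E D K X : Type u) [Field E] [Uncountable E] [PerfectField E]
  [DivisionRing D] [Algebra E D] [DivisionRing K] [Algebra E K] [DivisionRing X] [Algebra E X]
  (p n r : ℕ), p.Prime → DA E D → KP p 0 E D → CD E K n → p ∣ n → Cor E (K ⊗[E] D) X r →
  ¬ KP p 0 E X

/-- (L4) the tensor product of a `p`-free algebra and an algebra of degree `p ^ e` -/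
def ST_L4 : Prop := ∀ (E D K : Type u) [Field E] [Uncountable E] [PerfectField E]
  [DivisionRing D] [Algebra E D] [DivisionRing K] [Algebra E K] (p e : ℕ), p.Prime → DA E D →
  KP p 0 E D → CD E K (p ^ e) → DV (K ⊗[E] D)

/-- (FDL) cyclic subfields of degree `p` -/
def ST_FDL : Prop := ∀ (E D : Type u) [Field E] [Uncountable E] [PerfectField E] [DivisionRing D]
  [Algebra E D] (p : ℕ), p.Prime → DA E D → ¬ KP p 0 E D →
  ∃ (E' : Type u) (_ : Field E') (_ : Algebra E E') (D' : Type u) (_ : DivisionRing D')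
    (_ : Algebra E' D') (s : ℕ) (T : Type u) (_ : Field T) (_ : Algebra E' T),
    FiniteDimensional E E' ∧ ¬ p ∣ Module.finrank E E' ∧ Cor E' (E' ⊗[E] D) D' s ∧
    IsGalois E' T ∧ Module.finrank E' T = p ∧ Nonempty (T →ₐ[E'] D')

/-- (DR1) the last step in a tower of cyclic extensions -/
def ST_DR1 : Prop := ∀ (t : ℕ) (F D N : Type u) [Field F] [Uncountable F] [PerfectField F]
  [DivisionRing D] [Algebra F D] [Field N] [Algebra F N] [FiniteDimensional F N] [IsGalois F N]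
  (p : ℕ), p.Prime → Module.finrank F N = p ^ t → DA F D → ¬ KP p 0 F D →
  (∀ (Δ : Type u) [DivisionRing Δ] [Algebra N Δ] (s : ℕ), Cor N (N ⊗[F] D) Δ s → KP p 0 N Δ) →
  ∃ (M : Type u) (_ : Field M) (_ : Algebra F M) (_ : Algebra M N) (_ : IsScalarTower F M N)
    (T : Type u) (_ : Field T) (_ : Algebra M T) (_ : Algebra T N) (_ : IsScalarTower M T N)
    (Δ : Type u) (_ : DivisionRing Δ) (_ : Algebra M Δ) (s b : ℕ), FiniteDimensional F M ∧
    Module.finrank M N = p ^ b ∧ IsGalois M T ∧ Module.finrank M T = p ∧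
    Cor M (M ⊗[F] D) Δ s ∧ Nonempty (T →ₐ[M] Δ) ∧
    ∀ (Δ' : Type u) [DivisionRing Δ'] [Algebra T Δ'] (s' : ℕ), Cor T (T ⊗[M] Δ) Δ' s' →
      KP p 0 T Δ'

/-- (DRP) the last step in a tower of extensions -/
def ST_DRP : Prop := ∀ (F D N : Type u) [Field F] [Uncountable F] [PerfectField F]
  [DivisionRing D] [Algebra F D] [Field N] [Algebra F N] [FiniteDimensional F N] [IsGalois F N]
  (p : ℕ), p.Prime → DA F D → ¬ KP p 0 F D →
  (∀ (Δ : Type u) [DivisionRing Δ] [Algebra N Δ] (s : ℕ), Cor N (N ⊗[F] D) Δ s → KP p 0 N Δ) →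
  ∃ (M : Type u) (_ : Field M) (_ : Algebra F M) (_ : Algebra M N) (_ : IsScalarTower F M N)
    (T : Type u) (_ : Field T) (_ : Algebra M T) (_ : Algebra T N) (_ : IsScalarTower M T N)
    (Δ : Type u) (_ : DivisionRing Δ) (_ : Algebra M Δ) (s b : ℕ), FiniteDimensional F M ∧
    Module.finrank M N = p ^ b ∧ IsGalois M T ∧ Module.finrank M T = p ∧
    Cor M (M ⊗[F] D) Δ s ∧ Nonempty (T →ₐ[M] Δ) ∧
    ∀ (Δ' : Type u) [DivisionRing Δ'] [Algebra T Δ'] (s' : ℕ), Cor T (T ⊗[M] Δ) Δ' s' →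
      KP p 0 T Δ'

/-- (BE1) the choice of the algebra `Γ` -/
def ST_BE1 : Prop := ∀ (F D N : Type u) [Field F] [Uncountable F] [PerfectField F]
  [DivisionRing D] [Algebra F D] [Field N] [Algebra F N] [FiniteDimensional F N] [IsGalois F N]
  (p : ℕ), p.Prime → DA F D →
  (∀ (Δ : Type u) [DivisionRing Δ] [Algebra N Δ] (s : ℕ), Cor N (N ⊗[F] D) Δ s → KP p 0 N Δ) →
  ∃ (Γ : Type u) (_ : Ring Γ) (_ : Algebra F Γ) (S : TW F N Γ) (n k : ℕ)
    (a : (N ≃ₐ[F] N) → (N ≃ₐ[F] N) → N) (T' : TW F N (Γ ⊗[F] D)), CS F Γ ∧ TWS S n a ∧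
    MI N (N ⊗[F] Γ) N n ∧ Coh (fun g h => a g h ^ p ^ k) (fun _ _ => 1) ∧
    ∀ (M : Type u) [Field M] [Algebra F M] [Algebra M N] [IsScalarTower F M N],
      (∃ b, Module.finrank M N = p ^ b) → ∃ q₁ : ℕ, 0 < q₁ ∧ ¬ p ∣ q₁ ∧ ∀ q, q₁ ∣ q → 0 < q →
        Coh (fun g h : N ≃ₐ[M] N => NN N q (T'.U (g.restrictScalars F) (h.restrictScalars F)))
          (fun _ _ => 1)

/-- (BE2) the core of `Γ ⊗ D` is `p`-free -/
def ST_BE2 : Prop := ∀ (F D N Γ D' : Type u) [Field F] [Uncountable F] [PerfectField F]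
  [DivisionRing D] [Algebra F D] [Field N] [Algebra F N] [FiniteDimensional F N] [IsGalois F N]
  [Ring Γ] [Algebra F Γ] [DivisionRing D'] [Algebra F D'] (p n r : ℕ)
  (T' : TW F N (Γ ⊗[F] D)), p.Prime → DA F D → CS F Γ → MI N (N ⊗[F] Γ) N n →
  (∀ (Δ : Type u) [DivisionRing Δ] [Algebra N Δ] (s : ℕ), Cor N (N ⊗[F] D) Δ s → KP p 0 N Δ) →
  (∀ (M : Type u) [Field M] [Algebra F M] [Algebra M N] [IsScalarTower F M N],
    (∃ b, Module.finrank M N = p ^ b) → ∃ q₁ : ℕ, 0 < q₁ ∧ ¬ p ∣ q₁ ∧ ∀ q, q₁ ∣ q → 0 < q →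
      Coh (fun g h : N ≃ₐ[M] N => NN N q (T'.U (g.restrictScalars F) (h.restrictScalars F)))
        (fun _ _ => 1)) →
  Cor F (Γ ⊗[F] D) D' r → KP p 0 F D'

/-- (PRI) algebras of `p`-power period have `p`-power degree -/
def ST_PRI : Prop := ∀ (F N Γ L : Type u) [Field F] [Uncountable F] [PerfectField F] [Field N]
  [Algebra F N] [FiniteDimensional F N] [IsGalois F N] [Ring Γ] [Algebra F Γ] [DivisionRing L]
  [Algebra F L] (p n k r d : ℕ) (S : TW F N Γ) (a : (N ≃ₐ[F] N) → (N ≃ₐ[F] N) → N), p.Prime →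
  CS F Γ → TWS S n a → MI N (N ⊗[F] Γ) N n → Coh (fun g h => a g h ^ p ^ k) (fun _ _ => 1) →
  MI F Γ L r → CD F L d → ∃ e, d = p ^ e

/-- (MAIN) the primary component -/
def ST_MAIN : Prop := ∀ (F D : Type u) [Field F] [Uncountable F] [PerfectField F]
  [DivisionRing D] [Algebra F D] (p κ : ℕ), p.Prime → DA F D → KP p κ F D → ¬ KP p 0 F D →
  ∃ (e : ℕ) (K : Type u) (_ : DivisionRing K) (_ : Algebra F K) (C : Type u)
    (_ : DivisionRing C) (_ : Algebra F C), 0 < e ∧ CD F K (p ^ e) ∧ DA F C ∧ KP p 0 F C ∧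
    Nonempty (K ⊗[F] C ≃ₐ[F] D)

/-- (CYD) products of cyclic algebras have degree `p ^ j` -/
def ST_CYD : Prop := ∀ (E K : Type u) [Field E] [PerfectField E] [DivisionRing K] [Algebra E K]
  (p j : ℕ), p.Prime → CYS p E j K → CD E K (p ^ j)

/-- (DVC) passing to the centralizer of a subfield of the second factor -/
def ST_DVC : Prop := ∀ (E K Δ Z C : Type u) [Field E] [Uncountable E] [DivisionRing K]
  [Algebra E K] [FiniteDimensional E K] [DivisionRing Δ] [Algebra E Δ] [Field Z] [Algebra E Z]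
  [FiniteDimensional E Z] [DivisionRing C] [Algebra Z C], DA E Δ → DV (K ⊗[E] Δ) →
  Nonempty (Z →ₐ[E] Δ) → Cor Z (Z ⊗[E] Δ) C (Module.finrank E Z) →
  DV ((Z ⊗[E] K) ⊗[Z] C) ∧ DV (Z ⊗[E] K)

/-- (CYB) base change of products of cyclic algebras -/
def ST_CYB : Prop := ∀ (E K E' K' : Type u) [Field E] [PerfectField E] [DivisionRing K]
  [Algebra E K] [Field E'] [Algebra E E'] [FiniteDimensional E E'] [DivisionRing K']
  [Algebra E' K'] (p j : ℕ), p.Prime → CYS p E j K → MI E' (E' ⊗[E] K) K' 1 → CYS p E' j K'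

/-- (CHA) the chain: extension of degree prime to `p` -/
def ST_CHA : Prop := ∀ (E K D : Type u) [Field E] [Uncountable E] [PerfectField E]
  [DivisionRing K] [Algebra E K] [DivisionRing D] [Algebra E D] (p j : ℕ), p.Prime → DA E D →
  CYS p E j K → CD E K (p ^ j) → DV (K ⊗[E] D) → (∀ κ, ¬ KP p κ E D) →
  ∃ (E' : Type u) (_ : Field E') (_ : Algebra E E') (K' : Type u) (_ : DivisionRing K')
    (_ : Algebra E' K') (D' : Type u) (_ : DivisionRing D') (_ : Algebra E' D') (T : Type u)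
    (_ : Field T) (_ : Algebra E' T), FiniteDimensional E E' ∧ CYS p E' j K' ∧
    CD E' K' (p ^ j) ∧ DA E' D' ∧ DV (K' ⊗[E'] D') ∧ (∀ κ, ¬ KP p κ E' D') ∧ IsGalois E' T ∧
    Module.finrank E' T = p ∧ Nonempty (T →ₐ[E'] D')

/-- (CHB) the chain: a new cyclic factor -/
def ST_CHB : Prop := ∀ (E K D T : Type u) [Field E] [Uncountable E] [PerfectField E]
  [DivisionRing K] [Algebra E K] [DivisionRing D] [Algebra E D] [Field T] [Algebra E T]
  [IsGalois E T] (p j : ℕ), p.Prime → DA E D → CYS p E j K → CD E K (p ^ j) → DV (K ⊗[E] D) →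
  (∀ κ, ¬ KP p κ E D) → Module.finrank E T = p → Nonempty (T →ₐ[E] D) →
  ∃ (Z : Type u) (_ : Field Z) (_ : Algebra E Z) (K' : Type u) (_ : DivisionRing K')
    (_ : Algebra Z K') (D' : Type u) (_ : DivisionRing D') (_ : Algebra Z D'),
    FiniteDimensional E Z ∧ CYS p Z (j + 1) K' ∧ CD Z K' (p ^ (j + 1)) ∧ DA Z D' ∧
    DV (K' ⊗[Z] D') ∧ (∀ κ, ¬ KP p κ Z D')

/-- (ABR) unbounded degrees give long products of cyclic algebras -/
def ST_ABR : Prop := ∀ (F D : Type u) [Field F] [Uncountable F] [PerfectField F]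
  [DivisionRing D] [Algebra F D] (p : ℕ), p.Prime → DA F D → (∀ κ, ¬ KP p κ F D) →
  ∀ j : ℕ, ∃ (W : Type u) (_ : Field W) (_ : Algebra F W) (K : Type u) (_ : DivisionRing K)
    (_ : Algebra W K), FiniteDimensional F W ∧ CYS p W j K ∧ CD W K (p ^ j)

/-- (RES) the conclusion for fields of bounded cyclic length -/
def ST_RES : Prop := ∀ (F D : Type u) [Field F] [Uncountable F] [PerfectField F]
  [DivisionRing D] [Algebra F D], DA F D → (∃ x y : D, x * y ≠ y * x) →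
  (∀ p : ℕ, p.Prime → ∃ B : ℕ, ∀ (W : Type u) [Field W] [Algebra F W] [FiniteDimensional F W]
    (K : Type u) [DivisionRing K] [Algebra W K], ¬ CYS p W B K) →
  ∃ (p e : ℕ) (K : Type u) (_ : DivisionRing K) (_ : Algebra F K) (C : Type u)
    (_ : DivisionRing C) (_ : Algebra F C), p.Prime ∧ 0 < e ∧ CD F K (p ^ e) ∧ DA F C ∧
    KP p 0 F C ∧ Nonempty (K ⊗[F] C ≃ₐ[F] D)

end

end Pool.Agent.Helper91.KZ
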