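import Pool.Agent.Helper91.KZ.StG

/-!
# MP_1d885e_al: statements, part S (structure of tensor products)
-/

namespace Pool.Agent.Helper91.KZ

open Polynomial TensorProduct

universe u

noncomputable section

/-- (MMI) calculus of matrix algebras -/
def ST_MMI : Prop := ∀ (E M : Type u) [Field E] [Field M] [Algebra E M],
  (∀ (R S T : Type u) [Ring R] [Ring S] [Ring T] [Algebra E R] [Algebra E S] [Algebra E T] (r s : ℕ),
    MI E R S r → MI E S T s → MI E R T (r * s)) ∧
  (∀ (A B : Type u) [Ring A] [Ring B] [Algebra E A] [Algebra E B] (r : ℕ), MI E A B r →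
    MI M (M ⊗[E] A) (M ⊗[E] B) r) ∧
  (∀ (A B K L : Type u) [Ring A] [Ring B] [Ring K] [Ring L] [Algebra E A] [Algebra E B]
    [Algebra E K] [Algebra E L] (r s : ℕ), MI E K L r → MI E A B s →
    MI E (K ⊗[E] A) (L ⊗[E] B) (r * s)) ∧
  (∀ (A K : Type u) [Ring A] [Ring K] [Algebra E A] [Algebra E K],
    Nonempty (M ⊗[E] (K ⊗[E] A) ≃ₐ[M] (M ⊗[E] K) ⊗[M] (M ⊗[E] A))) ∧
  (∀ (N : Type u) [Field N] [Algebra E N] [Algebra M N] [IsScalarTower E M N] (A B : Type u)
    [Ring A] [Ring B] [Algebra E A] [Algebra M B] (r : ℕ), MI M (M ⊗[E] A) B r →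
    MI N (N ⊗[E] A) (N ⊗[M] B) r) ∧
  (∀ (A A' B : Type u) [Ring A] [Ring A'] [Ring B] [Algebra E A] [Algebra E A'] [Algebra E B]
    (r : ℕ), Nonempty (A ≃ₐ[E] A') → MI E A B r → MI E A' B r)

/-- (DVS) division rings and matrix algebras -/
def ST_DVS : Prop := ∀ (M : Type u) [Field M],
  (∀ (R Δ : Type u) [Ring R] [Algebra M R] [Ring Δ] [Algebra M Δ] (r : ℕ), DV R → MI M R Δ r →
    r = 1) ∧
  (∀ (R Δ : Type u) [Ring R] [Algebra M R] [Ring Δ] [Algebra M Δ], MI M R Δ 1 →
    Nonempty (R ≃ₐ[M] Δ)) ∧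
  (∀ (R Δ : Type u) [Ring R] [Algebra M R] [Ring Δ] [Algebra M Δ], Nonempty (R ≃ₐ[M] Δ) →
    MI M R Δ 1) ∧
  (∀ (R : Type u) [Ring R] [Algebra M R], DV R → ∃ (Δ : Type u) (_ : DivisionRing Δ)
    (_ : Algebra M Δ), Nonempty (R ≃ₐ[M] Δ))

/-- (UNI) uniqueness of the division algebra and of the size -/
def ST_UNI : Prop := ∀ (M R Δ Δ' : Type u) [Field M] [Ring R] [Algebra M R] [DivisionRing Δ]
  [Algebra M Δ] [DivisionRing Δ'] [Algebra M Δ'] (r r' : ℕ), MI M R Δ r → MI M R Δ' r' →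
  r = r' ∧ Nonempty (Δ ≃ₐ[M] Δ')

/-- (SIM) tensor products of simple algebras with central division algebras -/
def ST_SIM : Prop := ∀ (E D B : Type u) [Field E] [DivisionRing D] [Algebra E D] [Ring B]
  [Algebra E B], (∀ x : D, (∀ y : D, x * y = y * x) → ∃ e : E, algebraMap E D e = x) →
  IsSimpleRing B → IsSimpleRing (B ⊗[E] D) ∧ ∀ x : B ⊗[E] D, (∀ y, x * y = y * x) →
    ∃ b : B, (∀ c, b * c = c * b) ∧ b ⊗ₜ 1 = x

/-- (ALG) tensor products with finite-dimensional algebras over an uncountable field -/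
def ST_ALG : Prop := ∀ (E D S : Type u) [Field E] [Uncountable E] [DivisionRing D] [Algebra E D]
  [Ring S] [Algebra E S] [FiniteDimensional E S], (∀ x : D, IsIntegral E x) →
  ∀ x : S ⊗[E] D, IsIntegral E x

/-- (RDV) the size of the matrices divides the dimension -/
def ST_RDV : Prop := ∀ (E S D Δ : Type u) [Field E] [Ring S] [Algebra E S] [FiniteDimensional E S]
  [DivisionRing D] [Algebra E D] [Ring Δ] (r : ℕ), 0 < r →
  Nonempty (S ⊗[E] D ≃+* Matrix (Fin r) (Fin r) Δ) → r ∣ Module.finrank E S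

/-- (TS) base change of a division algebra -/
def ST_TS : Prop := ∀ (E D M : Type u) [Field E] [Uncountable E] [DivisionRing D] [Algebra E D]
  [Field M] [Algebra E M] [FiniteDimensional E M], DA E D →
  ∃ (r : ℕ) (Δ : Type u) (_ : DivisionRing Δ) (_ : Algebra M Δ), Cor M (M ⊗[E] D) Δ r ∧
    r ∣ Module.finrank E M

/-- (TK) tensor product with a central simple algebra -/
def ST_TK : Prop := ∀ (E D K : Type u) [Field E] [Uncountable E] [DivisionRing D] [Algebra E D]
  [Ring K] [Algebra E K], CS E K → DA E D →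
  ∃ (r : ℕ) (Δ : Type u) (_ : DivisionRing Δ) (_ : Algebra E Δ), Cor E (K ⊗[E] D) Δ r ∧
    r ∣ Module.finrank E K

/-- (EMB) maximal drop: the field embeds -/
def ST_EMB : Prop := ∀ (E D M Δ : Type u) [Field E] [DivisionRing D] [Algebra E D] [Field M]
  [Algebra E M] [FiniteDimensional E M] [DivisionRing Δ] [Algebra M Δ], DA E D →
  MI M (M ⊗[E] D) Δ (Module.finrank E M) → Nonempty (M →ₐ[E] D)

/-- (CEN) centralizers of finite subfields -/
def ST_CEN : Prop := ∀ (E D M : Type u) [Field E] [DivisionRing D] [Algebra E D] [Field M]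
  [Algebra E M] [FiniteDimensional E M] (i : M →ₐ[E] D), DA E D →
  ∃ (C : Type u) (_ : DivisionRing C) (_ : Algebra M C) (j : C →+* D), Function.Injective j ∧
    (∀ m, j (algebraMap M C m) = i m) ∧ (∀ d : D, (∀ m, d * i m = i m * d) ↔ ∃ c, j c = d) ∧
    Cor M (M ⊗[E] D) C (Module.finrank E M)

/-- (GAL) Galois extensions containing two given ones -/
def ST_GAL : Prop := ∀ (E M M' : Type u) [Field E] [PerfectField E] [Field M] [Algebra E M]
  [FiniteDimensional E M] [Field M'] [Algebra E M'] [FiniteDimensional E M'],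
  ∃ (N : Type u) (_ : Field N) (_ : Algebra E N) (_ : Algebra M N), IsScalarTower E M N ∧
    FiniteDimensional E N ∧ FiniteDimensional M N ∧ IsGalois E N ∧ Nonempty (M' →ₐ[E] N)

/-- (SYL) Sylow subfields -/
def ST_SYL : Prop := ∀ (E N : Type u) [Field E] [Field N] [Algebra E N] [FiniteDimensional E N]
  [IsGalois E N] (p : ℕ), p.Prime → ∀ L : IntermediateField E N, ∃ F' L' : IntermediateField E N,
  F' ≤ L' ∧ L ≤ L' ∧ ¬ p ∣ Module.finrank E F' ∧
  Module.finrank E L' = Module.finrank E F' * p ^ padicValNat p (Module.finrank E L) ∧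
  ∃ t : ℕ, Module.finrank E N = Module.finrank E F' * p ^ t

/-- (STP) cyclic steps in extensions of prime power degree -/
def ST_STP : Prop := ∀ (E N : Type u) [Field E] [Field N] [Algebra E N] [FiniteDimensional E N]
  [IsGalois E N] (p t : ℕ), p.Prime → Module.finrank E N = p ^ t → ∀ L : IntermediateField E N,
  L ≠ ⊥ → ∃ T : IntermediateField E N, T ≤ L ∧ IsGalois E T ∧ Module.finrank E T = p

/-- (KPE) degrees do not grow under finite extensions -/
def ST_KPE : Prop := ∀ (E D M Δ : Type u) [Field E] [Uncountable E] [PerfectField E]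
  [DivisionRing D] [Algebra E D] [Field M] [Algebra E M] [FiniteDimensional E M] [DivisionRing Δ]
  [Algebra M Δ] (p κ s : ℕ), DA E D → KP p κ E D → Cor M (M ⊗[E] D) Δ s → KP p κ M Δ

/-- (KPC) degrees in centralizers -/
def ST_KPC : Prop := ∀ (E D M Δ : Type u) [Field E] [PerfectField E]
  [DivisionRing D] [Algebra E D] [Field M] [Algebra E M] [FiniteDimensional E M] [DivisionRing Δ]
  [Algebra M Δ] (p κ s : ℕ), p.Prime → DA E D → KP p κ E D → Nonempty (M →ₐ[E] D) →
  Cor M (M ⊗[E] D) Δ s →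
  ∀ x : Δ, padicValNat p (dg M x) + padicValNat p (Module.finrank E M) ≤ κ

/-- (IDX) the `p`-part of the size of `M ⊗ D` -/
def ST_IDX : Prop := ∀ (E D M Δ : Type u) [Field E] [Uncountable E] [PerfectField E]
  [DivisionRing D] [Algebra E D] [Field M] [Algebra E M] [FiniteDimensional E M] [DivisionRing Δ]
  [Algebra M Δ] (p κ s : ℕ), p.Prime → DA E D → KP p κ E D → Cor M (M ⊗[E] D) Δ s →
  padicValNat p s ≤ κ

/-- (KPD) degrees before the extension -/
def ST_KPD : Prop := ∀ (E D M Δ : Type u) [Field E] [Uncountable E] [PerfectField E]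
  [DivisionRing D] [Algebra E D] [Field M] [Algebra E M] [FiniteDimensional E M] [DivisionRing Δ]
  [Algebra M Δ] (p κ s : ℕ), p.Prime → DA E D → KP p κ M Δ → Cor M (M ⊗[E] D) Δ s →
  ∀ x : D, padicValNat p (dg E x) ≤ padicValNat p s + κ

/-- (CS1) tensor products and base change of central simple algebras -/
def ST_CS1 : Prop := ∀ (E : Type u) [Field E],
  (∀ (K L : Type u) [Ring K] [Algebra E K] [Ring L] [Algebra E L], CS E K → CS E L →
    CS E (K ⊗[E] L)) ∧
  (∀ (K M : Type u) [Ring K] [Algebra E K] [Field M] [Algebra E M], CS E K → CS M (M ⊗[E] K))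

/-- (SPL) splitting fields of central simple algebras -/
def ST_SPL : Prop := ∀ (E K : Type u) [Field E] [PerfectField E] [Ring K] [Algebra E K], CS E K →
  ∃ n : ℕ, 0 < n ∧ Module.finrank E K = n ^ 2 ∧ ∀ (M : Type u) [Field M] [Algebra E M]
    [FiniteDimensional E M], ∃ (N : Type u) (_ : Field N) (_ : Algebra E N) (_ : Algebra M N),
    IsScalarTower E M N ∧ FiniteDimensional E N ∧ FiniteDimensional M N ∧ IsGalois E N ∧
    MI N (N ⊗[E] K) N n

/-- (CS2) central simple algebras and central division algebras -/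
def ST_CS2 : Prop := ∀ (E : Type u) [Field E] [PerfectField E],
  (∀ (K : Type u) [Ring K] [Algebra E K], CS E K → ∃ (r n : ℕ) (L : Type u) (_ : DivisionRing L)
    (_ : Algebra E L), CD E L n ∧ MI E K L r ∧ Module.finrank E K = (r * n) ^ 2) ∧
  (∀ (L : Type u) [DivisionRing L] [Algebra E L] (n : ℕ), CD E L n → CS E L)

/-- (CS3) the opposite algebra -/
def ST_CS3 : Prop := ∀ (E : Type u) [Field E],
  (∀ (K : Type u) [Ring K] [Algebra E K], CS E K → CS E Kᵐᵒᵖ ∧
    MI E (K ⊗[E] Kᵐᵒᵖ) E (Module.finrank E K)) ∧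
  (∀ (K : Type u) [DivisionRing K] [Algebra E K] (n : ℕ), CD E K n → CD E Kᵐᵒᵖ n)

/-- (IDD) index and base change -/
def ST_IDD : Prop := ∀ (E K M K' : Type u) [Field E] [PerfectField E] [DivisionRing K]
  [Algebra E K] [Field M] [Algebra E M] [FiniteDimensional E M] [DivisionRing K'] [Algebra M K']
  (n s : ℕ), CD E K n → MI M (M ⊗[E] K) K' s → s ∣ Module.finrank E M ∧ ∃ n', n = s * n' ∧
  CD M K' n'

/-- (SPT) maximal subfields split -/
def ST_SPT : Prop := ∀ (E K T : Type u) [Field E] [DivisionRing K] [Algebra E K] [Field T]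
  [Algebra E T] [FiniteDimensional E T], CD E K (Module.finrank E T) → Nonempty (T →ₐ[E] K) →
  MI T (T ⊗[E] K) T (Module.finrank E T) ∧ ∀ (N : Type u) [Field N] [Algebra E N] [Algebra T N]
    [IsScalarTower E T N], MI N (N ⊗[E] K) N (Module.finrank E T)

/-- (KTN) degrees in `K ⊗ D` -/
def ST_KTN : Prop := ∀ (E D K Δ : Type u) [Field E] [Uncountable E] [PerfectField E]
  [DivisionRing D] [Algebra E D] [Ring K] [Algebra E K] [DivisionRing Δ] [Algebra E Δ]
  (p κ n r : ℕ), p.Prime → DA E D → KP p κ E D → CS E K → Module.finrank E K = n ^ 2 →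
  Cor E (K ⊗[E] D) Δ r → ∀ x : Δ, padicValNat p (dg E x) + padicValNat p r ≤ padicValNat p n + κ

/-- (CYC) reduction to cyclic algebras of degree `p` -/
def ST_CYC : Prop := ∀ (E K : Type u) [Field E] [PerfectField E] [DivisionRing K] [Algebra E K]
  (p n : ℕ), p.Prime → CD E K n → p ∣ n →
  ∃ (M : Type u) (_ : Field M) (_ : Algebra E M) (K₁ : Type u) (_ : DivisionRing K₁)
    (_ : Algebra M K₁) (s : ℕ) (T : Type u) (_ : Field T) (_ : Algebra M T),
    FiniteDimensional E M ∧ CD M K₁ p ∧ MI M (M ⊗[E] K) K₁ s ∧ IsGalois M T ∧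
    Module.finrank M T = p ∧ Nonempty (T →ₐ[M] K₁)

/-- (MAX) a maximal `p`-degree makes the centralizer `p`-free -/
def ST_MAX : Prop := ∀ (E D : Type u) [Field E] [PerfectField E] [DivisionRing D] [Algebra E D]
  (p κ : ℕ), p.Prime → DA E D → KP p κ E D → ∃ (M : Type u) (_ : Field M) (_ : Algebra E M),
  FiniteDimensional E M ∧ Nonempty (M →ₐ[E] D) ∧ padicValNat p (Module.finrank E M) ≤ κ ∧
  (∀ x : D, padicValNat p (dg E x) ≤ padicValNat p (Module.finrank E M)) ∧
  ∀ (Δ : Type u) [DivisionRing Δ] [Algebra M Δ] (s : ℕ), Cor M (M ⊗[E] D) Δ s → KP p 0 M Δ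

/-- (SKN) Skolem-Noether for finite subfields -/
def ST_SKN : Prop := ∀ (E D M : Type u) [Field E] [PerfectField E] [DivisionRing D] [Algebra E D]
  [Field M] [Algebra E M] [FiniteDimensional E M] (i j : M →ₐ[E] D), DA E D →
  ∃ y : D, y ≠ 0 ∧ ∀ m, y * i m = j m * y

/-- (SUB) a central finite-dimensional division subalgebra is a tensor factor -/
def ST_SUB : Prop := ∀ (E D K : Type u) [Field E] [DivisionRing D] [Algebra E D] [DivisionRing K]
  [Algebra E K] (n : ℕ), DA E D → CD E K n → Nonempty (K →ₐ[E] D) →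
  ∃ (C : Type u) (_ : DivisionRing C) (_ : Algebra E C), DA E C ∧ Nonempty (C →ₐ[E] D) ∧
    Nonempty (K ⊗[E] C ≃ₐ[E] D)

/-- (CYG) the algebra generated by `T` and `y` -/
def ST_CYG : Prop := ∀ (E T C : Type u) [Field E] [Field T] [Algebra E T] [FiniteDimensional E T]
  [IsGalois E T] [DivisionRing C] [Algebra E C] (p : ℕ) (σ : T ≃ₐ[E] T) (i : T →ₐ[E] C) (y : C)
  (z : E), p.Prime → Module.finrank E T = p → σ ≠ 1 → y ≠ 0 → (∀ t, y * i t = i (σ t) * y) →
  y ^ p = algebraMap E C z →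
  ∃ (K : Type u) (_ : DivisionRing K) (_ : Algebra E K) (k : K →ₐ[E] C) (i' : T →ₐ[E] K) (y' : K),
    (∀ t, k (i' t) = i t) ∧ k y' = y ∧ CD E K p ∧ Cyc E T K p σ i' y' z

/-- (PFS) degrees in the second factor -/
def ST_PFS : Prop := ∀ (E T K Δ' Δ : Type u) [Field E] [Field T] [Algebra E T]
  [FiniteDimensional E T] [Ring K] [Algebra E K] [DivisionRing Δ'] [Algebra E Δ'] [DivisionRing Δ]
  [Algebra E Δ] (p κ : ℕ), DA E Δ' → DA E Δ → Nonempty (T →ₐ[E] K) →
  Nonempty (K ⊗[E] Δ' ≃ₐ[E] Δ) → (∀ (C : Type u) [DivisionRing C] [Algebra T C] (s : ℕ),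
    Cor T (T ⊗[E] Δ) C s → KP p κ T C) → KP p κ E Δ'

end

end Pool.Agent.Helper91.KZ
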