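import Pool.Agent.Helper91.KZ.StS

/-!
# MP_1d885e_al: statements, part T (twisted modules and cocycles)
-/

namespace Pool.Agent.Helper91.KZ

open Polynomial TensorProduct

universe u

noncomputable section

/-- (TWE) existence -/
def ST_TWE : Prop := ∀ (E N X Δ : Type u) [Field E] [Field N] [Algebra E N] [FiniteDimensional E N]
  [IsGalois E N] [Ring X] [Algebra E X] [DivisionRing Δ] [Algebra N Δ] (r : ℕ),
  Cor N (N ⊗[E] X) Δ r → Nonempty (TW E N X)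

/-- (TWI) uniqueness of the module -/
def ST_TWI : Prop := ∀ (E N X Δ : Type u) [Field E] [Field N] [Algebra E N] [FiniteDimensional E N]
  [Ring X] [Algebra E X] [DivisionRing Δ] [Algebra N Δ] (r : ℕ) (T T' : TW E N X),
  Cor N (N ⊗[E] X) Δ r → ∃ φ : T'.V ≃+ T.V, (∀ (n : N) v, φ (n • v) = n • φ v) ∧
    ∀ (x : X) v, φ (x • v) = x • φ v

/-- (TWB) the endomorphism ring -/
def ST_TWB : Prop := ∀ (E N X Δ : Type u) [Field E] [Field N] [Algebra E N] [FiniteDimensional E N]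
  [Ring X] [Algebra E X] [DivisionRing Δ] [Algebra N Δ] (r : ℕ) (T : TW E N X),
  Cor N (N ⊗[E] X) Δ r → Nonempty (T.B ≃ₐ[N] Δᵐᵒᵖ) ∧ Nonempty (T.V ≃ₗ[N] (Fin r → Δ)) ∧
    DA N T.B ∧ (∀ p κ : ℕ, KP p κ N Δ → KP p κ N T.B) ∧ (∀ g h, T.U g h ≠ 0)

/-- (TWM) matrices -/
def ST_TWM : Prop := ∀ (E N X Y : Type u) [Field E] [Field N] [Algebra E N] [Ring X] [Algebra E X]
  [Ring Y] [Algebra E Y] (j : ℕ) (T : TW E N X), MI E Y X j →
  ∃ (T' : TW E N Y) (e : T'.B ≃ₐ[N] T.B), ∀ g h, e (T'.U g h) = T.U g h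

/-- (TWR) restriction to a larger base -/
def ST_TWR : Prop := ∀ (E M N X : Type u) [Field E] [Field M] [Algebra E M] [Field N] [Algebra E N]
  [Algebra M N] [IsScalarTower E M N] [Ring X] [Algebra E X] (T : TW E N X),
  ∃ (T' : TW M N (M ⊗[E] X)) (e : T'.B ≃ₐ[N] T.B), ∀ g h : N ≃ₐ[M] N,
    e (T'.U g h) = T.U (g.restrictScalars E) (h.restrictScalars E)

/-- (TWP) products -/
def ST_TWP : Prop := ∀ (E N K Y : Type u) [Field E] [Field N] [Algebra E N] [Ring K] [Algebra E K]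
  [Ring Y] [Algebra E Y] (S : TW E N K) (T : TW E N Y) (n : ℕ)
  (a : (N ≃ₐ[E] N) → (N ≃ₐ[E] N) → N), CS E K → TWS S n a →
  ∃ (T' : TW E N (K ⊗[E] Y)) (e : T'.B ≃ₐ[N] T.B), ∀ g h,
    e (T'.U g h) = algebraMap N T.B (a g h) * T.U g h

/-- (TWT) trivial cocycle if `N ⊗ Y` is a division algebra -/
def ST_TWT : Prop := ∀ (E N Y Δ : Type u) [Field E] [Field N] [Algebra E N] [FiniteDimensional E N]
  [IsGalois E N] [DivisionRing Y] [Algebra E Y] [DivisionRing Δ] [Algebra N Δ], DA E Y →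
  Cor N (N ⊗[E] Y) Δ 1 → ∃ T : TW E N Y, ∀ g h, T.U g h = 1

/-- (TWK) split central simple algebras -/
def ST_TWK : Prop := ∀ (E N K : Type u) [Field E] [Field N] [Algebra E N] [FiniteDimensional E N]
  [IsGalois E N] [Ring K] [Algebra E K] (n : ℕ), CS E K → MI N (N ⊗[E] K) N n →
  ∃ (T : TW E N K) (a : (N ≃ₐ[E] N) → (N ≃ₐ[E] N) → N), TWS T n a

/-- (TWZ) cocycle identities -/
def ST_TWZ : Prop := ∀ (E N X Δ : Type u) [Field E] [Field N] [Algebra E N] [FiniteDimensional E N]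
  [IsGalois E N] [Uncountable N] [Ring X] [Algebra E X] [DivisionRing Δ] [Algebra N Δ]
  (T : TW E N X) (r p : ℕ), Cor N (N ⊗[E] X) Δ r → p.Prime → KP p 0 N Δ →
  ∃ q₀ : ℕ, 0 < q₀ ∧ ¬ p ∣ q₀ ∧ ∀ q, q₀ ∣ q → 0 < q → Z2 (fun g h => NN N q (T.U g h))

/-- (TWY) the cocycle of a split algebra is a cocycle -/
def ST_TWY : Prop := ∀ (E N X : Type u) [Field E] [Field N] [Algebra E N] [Ring X] [Algebra E X]
  (T : TW E N X) (n : ℕ) (a : (N ≃ₐ[E] N) → (N ≃ₐ[E] N) → N), TWS T n a → Z2 a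

/-- (TWC) uniqueness of the class -/
def ST_TWC : Prop := ∀ (E N X Δ : Type u) [Field E] [Field N] [Algebra E N] [FiniteDimensional E N]
  [IsGalois E N] [Uncountable N] [Ring X] [Algebra E X] [DivisionRing Δ] [Algebra N Δ]
  (T T' : TW E N X) (a : (N ≃ₐ[E] N) → (N ≃ₐ[E] N) → N) (r p : ℕ), Cor N (N ⊗[E] X) Δ r →
  p.Prime → KP p 0 N Δ → (∀ g h, a g h ≠ 0) → (∀ g h, T'.U g h = algebraMap N T'.B (a g h)) →
  ∃ q₀ : ℕ, 0 < q₀ ∧ ¬ p ∣ q₀ ∧ ∀ q, q₀ ∣ q → 0 < q →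
    Coh (fun g h => NN N q (T.U g h)) (fun g h => a g h ^ q)

/-- (GDS) Galois descent for semilinear actions -/
def ST_GDS : Prop := ∀ (E N V : Type u) [Field E] [Field N] [Algebra E N] [FiniteDimensional E N]
  [IsGalois E N] [AddCommGroup V] [Module N V] (R : (N ≃ₐ[E] N) → V →+ V),
  (∀ g (n : N) v, R g (n • v) = g n • R g v) → (∀ g h v, R g (R h v) = R (g * h) v) →
  (∀ v, R 1 v = v) →
  (∀ v : V, v ∈ Submodule.span N {w : V | ∀ g, R g w = w}) ∧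
  (∀ (ι : Type) [Fintype ι] (w : ι → V), (∀ i g, R g (w i) = w i) →
    (∀ c : ι → E, ∑ i, algebraMap E N (c i) • w i = 0 → c = 0) → LinearIndependent N w)

/-- (TRI) a trivial class means a split algebra -/
def ST_TRI : Prop := ∀ (E N K : Type u) [Field E] [Field N] [Algebra E N] [FiniteDimensional E N]
  [IsGalois E N] [DivisionRing K] [Algebra E K] (n : ℕ) (T : TW E N K)
  (a : (N ≃ₐ[E] N) → (N ≃ₐ[E] N) → N), CD E K n → TWS T n a → Coh a (fun _ _ => 1) → n = 1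

/-- (PER) the period divides the degree -/
def ST_PER : Prop := ∀ (E N K : Type u) [Field E] [Field N] [Algebra E N] [FiniteDimensional E N]
  [IsGalois E N] [Ring K] [Algebra E K] (n : ℕ) (T : TW E N K)
  (a : (N ≃ₐ[E] N) → (N ≃ₐ[E] N) → N), TWS T n a → Coh (fun g h => a g h ^ n) (fun _ _ => 1)

/-- (CR1) the commutant of a twisted action -/
def ST_CR1 : Prop := ∀ (E N V : Type u) [Field E] [Field N] [Algebra E N] [FiniteDimensional E N]
  [IsGalois E N] [AddCommGroup V] [Module N V] [FiniteDimensional N V]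
  (X : (N ≃ₐ[E] N) → (V ≃+ V)) (a : (N ≃ₐ[E] N) → (N ≃ₐ[E] N) → N), (∀ g h, a g h ≠ 0) →
  (∀ g (n : N) v, X g (n • v) = g n • X g v) → (∀ g h v, X g (X h v) = a g h • X (g * h) v) →
  0 < Module.finrank N V → ∃ (Γ : Type u) (_ : Ring Γ) (_ : Algebra E Γ)
    (i : Γ →+* Module.End N V), Function.Injective i ∧
    (∀ e : E, i (algebraMap E Γ e) = algebraMap E N e • 1) ∧
    (∀ γ g v, X g (i γ v) = i γ (X g v)) ∧
    (∀ f : Module.End N V, f ∈ Submodule.span N (Set.range i)) ∧ CS E Γ ∧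
    MI N (N ⊗[E] Γ) N (Module.finrank N V)

/-- (CRO) every cocycle is the cocycle of a central simple algebra -/
def ST_CRO : Prop := ∀ (E N : Type u) [Field E] [Field N] [Algebra E N] [FiniteDimensional E N]
  [IsGalois E N] (a : (N ≃ₐ[E] N) → (N ≃ₐ[E] N) → N), Z2 a →
  ∃ (Γ : Type u) (_ : Ring Γ) (_ : Algebra E Γ) (T : TW E N Γ), CS E Γ ∧
    TWS T (Module.finrank E N) a ∧ MI N (N ⊗[E] Γ) N (Module.finrank E N)

/-- (KIL) the order of the group kills the class -/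
def ST_KIL : Prop := ∀ (E N : Type u) [Field E] [Field N] [Algebra E N] [FiniteDimensional E N]
  [IsGalois E N] (a : (N ≃ₐ[E] N) → (N ≃ₐ[E] N) → N), Z2 a →
  Coh (fun g h => a g h ^ Module.finrank E N) (fun _ _ => 1)

/-- (COH) calculus of cohomologous functions -/
def ST_COH : Prop := ∀ (E N : Type u) [Field E] [Field N] [Algebra E N]
  (a b c d : (N ≃ₐ[E] N) → (N ≃ₐ[E] N) → N), (∀ g h, a g h ≠ 0) → (∀ g h, b g h ≠ 0) →
  (∀ g h, c g h ≠ 0) → (∀ g h, d g h ≠ 0) →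
  Coh a a ∧ (Coh a b → Coh b a) ∧ (Coh a b → Coh b c → Coh a c) ∧
  (Coh a b → Coh c d → Coh (fun g h => a g h * c g h) (fun g h => b g h * d g h)) ∧
  (∀ m : ℕ, Coh a b → Coh (fun g h => a g h ^ m) (fun g h => b g h ^ m)) ∧
  (Coh a b → Coh (fun g h => (a g h)⁻¹) (fun g h => (b g h)⁻¹)) ∧
  (∀ m n : ℕ, Nat.Coprime m n → Coh (fun g h => a g h ^ m) (fun _ _ => 1) →
    Coh (fun g h => a g h ^ n) (fun _ _ => 1) → Coh a (fun _ _ => 1))

/-- (RSC) restriction of cocycles to subgroups -/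
def ST_RSC : Prop := ∀ (E M N : Type u) [Field E] [Field M] [Algebra E M] [Field N] [Algebra E N]
  [Algebra M N] [IsScalarTower E M N] (a b : (N ≃ₐ[E] N) → (N ≃ₐ[E] N) → N),
  (Z2 a → Z2 (fun g h : N ≃ₐ[M] N => a (g.restrictScalars E) (h.restrictScalars E))) ∧
  (Coh a b → Coh (fun g h : N ≃ₐ[M] N => a (g.restrictScalars E) (h.restrictScalars E))
    (fun g h : N ≃ₐ[M] N => b (g.restrictScalars E) (h.restrictScalars E)))

/-- (NOR) cyclic groups: the class as a norm class -/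
def ST_NOR : Prop := ∀ (E T : Type u) [Field E] [Field T] [Algebra E T] [FiniteDimensional E T]
  [IsGalois E T] (p : ℕ) (σ : T ≃ₐ[E] T) (a b : (T ≃ₐ[E] T) → (T ≃ₐ[E] T) → T), p.Prime →
  Module.finrank E T = p → σ ≠ 1 → (∀ g h, b g h ≠ 0) → Coh a b →
  ∃ t : T, t ≠ 0 ∧ ∏ i ∈ Finset.range p, a (σ ^ i) σ =
    algebraMap E T (Algebra.norm E t) * ∏ i ∈ Finset.range p, b (σ ^ i) σ

/-- (CYK) the twisted module of a cyclic algebra -/
def ST_CYK : Prop := ∀ (E T K : Type u) [Field E] [Field T] [Algebra E T] [FiniteDimensional E T]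
  [IsGalois E T] [Ring K] [Algebra E K] (p : ℕ) (σ : T ≃ₐ[E] T) (i : T →ₐ[E] K) (y : K) (z : E),
  p.Prime → Module.finrank E T = p → σ ≠ 1 → Cyc E T K p σ i y z →
  MI T (T ⊗[E] K) T p ∧ ∃ (S : TW E T K) (a : (T ≃ₐ[E] T) → (T ≃ₐ[E] T) → T), TWS S p a ∧
    ∏ i ∈ Finset.range p, a (σ ^ i) σ = algebraMap E T z⁻¹

end

end Pool.Agent.Helper91.KZ
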